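import Pool.Agent.H61.PNT.Defs

set_option autoImplicit false

namespace Pool.Agent.H61.PNT

open Filter

/-- From `ψ` to `π`. -/
theorem conv (P : PsiSt) : PNTSt := by
  obtain ⟨C1, hC1⟩ := Chebyshev.primeCounting_sub_theta_div_log_isBigO.bound
  obtain ⟨x1, hx1⟩ := eventually_atTop.1 hC1
  obtain ⟨x0, hx0⟩ := P 1 one_pos
  set X : ℝ := max (max x0 x1) 2 with hX
  have hX2 : 2 ≤ X := le_max_right _ _
  have hlX : 0 < Real.log X := Real.log_pos (by linarith)
  have hl2 : 0 < Real.log 2 := Real.log_pos (by norm_num)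
  set C2 : ℝ := (X + X / Real.log 2) * Real.log X ^ 2 / 2 with hC2
  have hC20 : 0 ≤ C2 := by positivity
  refine ⟨|C1| + 33 + C2, by positivity, ?_⟩
  intro x hx
  have hx0' : 0 < x := by linarith
  have hlx : 0 < Real.log x := Real.log_pos (by linarith)
  rcases le_or_gt X x with h | h
  · -- large `x`
    have h1 := hx1 x ((le_max_right _ _).trans ((le_max_left _ _).trans h))
    have h2 := hx0 x ((le_max_left _ _).trans ((le_max_left _ _).trans h))
    have h3 := Chebyshev.abs_psi_sub_theta_le_sqrt_mul_log (show 1 ≤ x by linarith)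
    simp only [Real.norm_eq_abs] at h1
    rw [abs_of_pos (show 0 < x / Real.log x ^ 2 by positivity)] at h1
    have h4 : √x ≤ 16 * (x / Real.log x ^ 2) := by
      have a1 : Real.log x ≤ x ^ (1 / 4 : ℝ) / (1 / 4) := Real.log_le_rpow_div hx0'.le (by norm_num)
      have a2 : Real.log x ^ 2 ≤ (4 * x ^ (1 / 4 : ℝ)) ^ 2 := by
        apply pow_le_pow_left₀ hlx.le; linarith
      have a3 : (x ^ (1 / 4 : ℝ)) ^ 2 = √x := by
        rw [← Real.rpow_natCast, ← Real.rpow_mul hx0'.le, Real.sqrt_eq_rpow]
        norm_num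
      rw [mul_pow, a3] at a2
      have a4 : √x * √x = x := Real.mul_self_sqrt hx0'.le
      rw [mul_div_assoc', le_div_iff₀ (by positivity)]
      calc √x * Real.log x ^ 2 ≤ √x * (4 ^ 2 * √x) := by gcongr
        _ = 16 * (√x * √x) := by ring
        _ = 16 * x := by rw [a4]
    have h5 : |Chebyshev.theta x / Real.log x - x / Real.log x| ≤ 33 * (x / Real.log x ^ 2) := by
      have e : Chebyshev.theta x / Real.log x - x / Real.log x =
          ((Chebyshev.psi x - x) - (Chebyshev.psi x - Chebyshev.theta x)) / Real.log x := by ring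
      rw [e, abs_div, abs_of_pos hlx, div_le_iff₀ hlx]
      refine (abs_sub _ _).trans ?_
      have e2 : 33 * (x / Real.log x ^ 2) * Real.log x = x / Real.log x + 32 * (x / Real.log x ^ 2) * Real.log x := by
        field_simp
        ring
      rw [e2]
      rw [one_mul] at h2
      have h6 : 2 * √x * Real.log x ≤ 32 * (x / Real.log x ^ 2) * Real.log x := by
        apply mul_le_mul_of_nonneg_right _ hlx.le
        linarith
      linarith
    have e : (Nat.primeCounting ⌊x⌋₊ : ℝ) - x / Real.log x =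
        ((Nat.primeCounting ⌊x⌋₊ : ℝ) - Chebyshev.theta x / Real.log x) +
        (Chebyshev.theta x / Real.log x - x / Real.log x) := by ring
    rw [e]
    refine (abs_add_le _ _).trans ?_
    have hq : 0 ≤ x / Real.log x ^ 2 := by positivity
    have h7 : C1 * (x / Real.log x ^ 2) ≤ |C1| * (x / Real.log x ^ 2) :=
      mul_le_mul_of_nonneg_right (le_abs_self _) hq
    have h8 : 0 ≤ C2 * (x / Real.log x ^ 2) := mul_nonneg hC20 hq
    have e3 : (|C1| + 33 + C2) * x / Real.log x ^ 2 =
        |C1| * (x / Real.log x ^ 2) + 33 * (x / Real.log x ^ 2) + C2 * (x / Real.log x ^ 2) := by ring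
    rw [e3]
    linarith
  · -- small `x`
    have a1 : (Nat.primeCounting ⌊x⌋₊ : ℝ) ≤ X := by
      have b2 : Nat.primeCounting ⌊x⌋₊ ≤ ⌊x⌋₊ := by
        rw [Nat.primeCounting, Nat.primeCounting', Nat.count_succ']
        simp only [Nat.not_prime_zero, if_false, add_zero]
        exact Nat.count_le _
      have b3 : ((⌊x⌋₊ : ℕ) : ℝ) ≤ x := Nat.floor_le hx0'.le
      have b4 : (Nat.primeCounting ⌊x⌋₊ : ℝ) ≤ ((⌊x⌋₊ : ℕ) : ℝ) := by exact_mod_cast b2
      linarith
    have a2 : 0 ≤ (Nat.primeCounting ⌊x⌋₊ : ℝ) := by positivity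
    have a3 : x / Real.log x ≤ X / Real.log 2 := by
      have := Real.log_le_log (by norm_num : (0 : ℝ) < 2) hx
      gcongr
    have a4 : 0 ≤ x / Real.log x := by positivity
    have a5 : |(Nat.primeCounting ⌊x⌋₊ : ℝ) - x / Real.log x| ≤ X + X / Real.log 2 := by
      have : 0 ≤ X / Real.log 2 := by positivity
      rw [abs_le]
      constructor <;> linarith
    refine a5.trans ?_
    have a6 : Real.log x ≤ Real.log X := Real.log_le_log hx0' h.le
    have a7 : X + X / Real.log 2 ≤ C2 * x / Real.log x ^ 2 := by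
      rw [le_div_iff₀ (by positivity), hC2]
      have c1 : 0 ≤ X + X / Real.log 2 := by positivity
      have c2 : Real.log x ^ 2 ≤ Real.log X ^ 2 := pow_le_pow_left₀ hlx.le a6 2
      calc (X + X / Real.log 2) * Real.log x ^ 2 ≤ (X + X / Real.log 2) * Real.log X ^ 2 := by gcongr
        _ = (X + X / Real.log 2) * Real.log X ^ 2 / 2 * 2 := by ring
        _ ≤ (X + X / Real.log 2) * Real.log X ^ 2 / 2 * x := by gcongr
    refine a7.trans ?_
    have : 0 ≤ |C1| := abs_nonneg _
    gcongr
    linarith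

end Pool.Agent.H61.PNT
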