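import Pool.Agent.H61.PNT.Defs

/-!
# The second derivative of Phi is small
-/

set_option autoImplicit false

namespace Pool.Agent.H61.PNT

open Complex MeasureTheory Set Filter Topology

namespace DBound61

/-- the open half-plane -/
def Hp : Set ℂ := {s | 1 < s.re}

lemma isOpen_Hp : IsOpen Hp := isOpen_lt continuous_const Complex.continuous_re

lemma ne_one {s : ℂ} (hs : s ∈ Hp) : s ≠ 1 := by
  rintro rfl
  simp [Hp] at hs

lemma ne_zero' {s : ℂ} (hs : s ∈ Hp) : s ≠ 0 := by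
  rintro rfl
  simp [Hp] at hs
  linarith

lemma an {s : ℂ} (hs : s ≠ 1) : AnalyticAt ℂ riemannZeta s := by
  have : DifferentiableOn ℂ riemannZeta ({1}ᶜ : Set ℂ) := fun x hx =>
    (differentiableAt_riemannZeta hx).differentiableWithinAt
  exact this.analyticAt (isOpen_compl_singleton.mem_nhds hs)

/-- first derivative -/
noncomputable def P1 (s : ℂ) : ℂ :=
  -(deriv (deriv riemannZeta) s / riemannZeta s - (deriv riemannZeta s / riemannZeta s) ^ 2) / s +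
    (deriv riemannZeta s / riemannZeta s) / s ^ 2 + 1 / (s - 1) ^ 2

/-- second derivative -/
noncomputable def P2 (s : ℂ) : ℂ :=
  -(deriv (deriv (deriv riemannZeta)) s / riemannZeta s -
      3 * (deriv riemannZeta s / riemannZeta s) * (deriv (deriv riemannZeta) s / riemannZeta s) +
      2 * (deriv riemannZeta s / riemannZeta s) ^ 3) / s +
    2 * (deriv (deriv riemannZeta) s / riemannZeta s - (deriv riemannZeta s / riemannZeta s) ^ 2) / s ^ 2 -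
    2 * (deriv riemannZeta s / riemannZeta s) / s ^ 3 - 2 / (s - 1) ^ 3

lemma d0 {s : ℂ} (hs : s ∈ Hp) : HasDerivAt riemannZeta (deriv riemannZeta s) s :=
  (an (ne_one hs)).differentiableAt.hasDerivAt

lemma d1 {s : ℂ} (hs : s ∈ Hp) : HasDerivAt (deriv riemannZeta) (deriv (deriv riemannZeta) s) s :=
  (an (ne_one hs)).deriv.differentiableAt.hasDerivAt

lemma d2 {s : ℂ} (hs : s ∈ Hp) :
    HasDerivAt (deriv (deriv riemannZeta)) (deriv (deriv (deriv riemannZeta)) s) s :=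
  (an (ne_one hs)).deriv.deriv.differentiableAt.hasDerivAt

lemma hasDeriv_Phi {s : ℂ} (hs : s ∈ Hp) : HasDerivAt Phi (P1 s) s := by
  have hz : riemannZeta s ≠ 0 := riemannZeta_ne_zero_of_one_lt_re hs
  have h0 := ne_zero' hs
  have h1 : s - 1 ≠ 0 := sub_ne_zero.2 (ne_one hs)
  have h := ((d1 hs).neg.div ((hasDerivAt_id s).mul (d0 hs)) (mul_ne_zero h0 hz)).sub
    ((hasDerivAt_const s (1 : ℂ)).div ((hasDerivAt_id s).sub_const 1) h1)
  refine h.congr_deriv ?_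
  simp only [P1, id, Pi.mul_apply, Pi.neg_apply]
  field_simp
  ring

lemma hasDeriv_P1 {s : ℂ} (hs : s ∈ Hp) : HasDerivAt P1 (P2 s) s := by
  have hz : riemannZeta s ≠ 0 := riemannZeta_ne_zero_of_one_lt_re hs
  have h0 := ne_zero' hs
  have h1 : s - 1 ≠ 0 := sub_ne_zero.2 (ne_one hs)
  have hid := hasDerivAt_id s
  have e1 := (d1 hs).div (d0 hs) hz
  have e2 := (d2 hs).div (d0 hs) hz
  have h := (((e2.sub (e1.pow 2)).neg.div hid h0).add (e1.div (hid.pow 2) (pow_ne_zero 2 h0))).add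
    ((hasDerivAt_const s (1 : ℂ)).div ((hid.sub_const 1).pow 2) (pow_ne_zero 2 h1))
  refine h.congr_deriv ?_
  simp only [P2, id, Pi.neg_apply, Pi.div_apply, Pi.pow_apply, Pi.sub_apply, Nat.cast_ofNat,
    show (2 : ℕ) - 1 = 1 from rfl, pow_one]
  field_simp
  ring

lemma iter_Phi {s : ℂ} (hs : s ∈ Hp) : iteratedDeriv 2 Phi s = P2 s := by
  rw [iteratedDeriv_succ, iteratedDeriv_one]
  have h : deriv Phi =ᶠ[𝓝 s] P1 := by
    filter_upwards [isOpen_Hp.mem_nhds hs] with x hx using (hasDeriv_Phi hx).deriv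
  rw [h.deriv_eq, (hasDeriv_P1 hs).deriv]

/-- the function without pole -/
noncomputable def G (s : ℂ) : ℂ := -deriv riemannZeta₁ s / (s * riemannZeta₁ s) - 1 / s

lemma zeta1_ne {s : ℂ} (hs : 1 ≤ s.re) : riemannZeta₁ s ≠ 0 := by
  by_cases h : s = 1
  · rw [h, riemannZeta₁_one]; exact one_ne_zero
  · have h1 := riemannZeta_ne_zero_of_one_le_re hs
    intro h2
    apply h1
    have : riemannZeta s = (s - 1)⁻¹ * riemannZeta₁ s := by
      grind [riemannZeta₁, riemannZeta₀]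
    rw [this, h2, mul_zero]

lemma an_G : AnalyticOnNhd ℂ G {s | 1 ≤ s.re} := by
  intro s hs
  have hs' : (1 : ℝ) ≤ s.re := hs
  have h0 : s ≠ 0 := by
    rintro rfl
    norm_num at hs'
  have h1 : AnalyticAt ℂ riemannZeta₁ s :=
    (differentiable_riemannZeta₁.differentiableOn (s := Set.univ)).analyticAt univ_mem
  exact (h1.deriv.neg.div (analyticAt_id.mul h1) (mul_ne_zero h0 (zeta1_ne hs'))).sub
    (analyticAt_const.div analyticAt_id h0)

lemma Phi_eq_G {s : ℂ} (hs : s ∈ Hp) : Phi s = G s := by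
  have h0 := ne_zero' hs
  have h1 : s - 1 ≠ 0 := sub_ne_zero.2 (ne_one hs)
  have hz1 : riemannZeta₁ s ≠ 0 := zeta1_ne (le_of_lt hs)
  have e1 : ∀ x ∈ Hp, riemannZeta x = (x - 1)⁻¹ * riemannZeta₁ x := fun x hx => by
    have := ne_one hx
    grind [riemannZeta₁, riemannZeta₀]
  have e2 : deriv riemannZeta s = -(1 / (s - 1) ^ 2) * riemannZeta₁ s +
      (s - 1)⁻¹ * deriv riemannZeta₁ s := by
    have h : riemannZeta =ᶠ[𝓝 s] fun x => (x - 1)⁻¹ * riemannZeta₁ x := by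
      filter_upwards [isOpen_Hp.mem_nhds hs] with x hx using e1 x hx
    rw [h.deriv_eq]
    have h2 := ((((hasDerivAt_id s).sub_const 1).inv h1).mul
      (differentiable_riemannZeta₁ s).hasDerivAt).deriv
    simp only [id] at h2
    refine Eq.trans ?_ (h2.trans ?_)
    · rfl
    · simp only [Pi.inv_apply]
      ring
  unfold Phi G
  rw [e2, e1 s hs]
  field_simp
  ring

lemma small : ∃ C : ℝ, 0 < C ∧ ∀ σ t : ℝ, 1 < σ → σ ≤ 2 → |t| ≤ 2 →
    ‖iteratedDeriv 2 Phi ((σ : ℂ) + (t : ℂ) * I)‖ ≤ C := by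
  have hc : IsCompact (Set.Icc (1 : ℝ) 2 ×ℂ Set.Icc (-2 : ℝ) 2) := isCompact_Icc.reProdIm isCompact_Icc
  have hcont : ContinuousOn (iteratedDeriv 2 G) (Set.Icc (1 : ℝ) 2 ×ℂ Set.Icc (-2 : ℝ) 2) := by
    have h := (an_G.iterated_deriv 2).continuousOn
    rw [← iteratedDeriv_eq_iterate] at h
    exact h.mono fun s hs => hs.1.1
  obtain ⟨C, hC⟩ := hc.exists_bound_of_continuousOn hcont
  refine ⟨max C 1, by positivity, fun σ t h1 h2 h3 => ?_⟩
  have hs : ((σ : ℂ) + (t : ℂ) * I) ∈ Hp := by simp [Hp, h1]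
  have h : Phi =ᶠ[𝓝 ((σ : ℂ) + (t : ℂ) * I)] G := by
    filter_upwards [isOpen_Hp.mem_nhds hs] with x hx using Phi_eq_G hx
  rw [h.iteratedDeriv_eq]
  refine (hC _ ?_).trans (le_max_left _ _)
  rw [abs_le] at h3
  constructor
  · simp [h1.le, h2]
  · simp [h3.1, h3.2]

lemma cplx {A B E : ℝ} {a b c : ℂ} (ha : ‖a‖ ≤ A) (hb : ‖b‖ ≤ B) (hc : ‖c‖ ≤ E) :
    ‖c - 3 * a * b + 2 * a ^ 3‖ ≤ E + 3 * A * B + 2 * A ^ 3 := by
  have hA : 0 ≤ A := (norm_nonneg _).trans ha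
  calc ‖c - 3 * a * b + 2 * a ^ 3‖ ≤ ‖c‖ + ‖3 * a * b‖ + ‖2 * a ^ 3‖ := by
        refine (norm_add_le _ _).trans ?_
        gcongr
        exact norm_sub_le _ _
    _ = ‖c‖ + 3 * ‖a‖ * ‖b‖ + 2 * ‖a‖ ^ 3 := by
        simp
    _ ≤ E + 3 * A * B + 2 * A ^ 3 := by gcongr

lemma large (B : ZBoundSt) (L : ZLowSt) : ∃ C : ℝ, 0 < C ∧ ∀ σ t : ℝ, 1 < σ → σ ≤ 2 → 2 ≤ |t| →
    ‖iteratedDeriv 2 Phi ((σ : ℂ) + (t : ℂ) * I)‖ ≤ C * (1 + Real.log |t|) ^ 27 / |t| := by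
  obtain ⟨C, hC, hB⟩ := B
  obtain ⟨c, hc, hL⟩ := L
  set D := C / c with hD
  have hD0 : 0 < D := by positivity
  refine ⟨(D + 3 * D * D + 2 * D ^ 3) + 2 * (D + D ^ 2) + 2 * D + 2, by positivity,
    fun σ t h1 h2 h3 => ?_⟩
  set s : ℂ := (σ : ℂ) + (t : ℂ) * I with hs
  have hsH : s ∈ Hp := by simp [hs, Hp, h1]
  have hz : riemannZeta s ≠ 0 := riemannZeta_ne_zero_of_one_lt_re hsH
  set l := Real.log |t| with hl
  have hl0 : 0 ≤ l := Real.log_nonneg (by linarith)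
  have hzp : 0 < ‖riemannZeta s‖ := norm_pos_iff.2 hz
  have hlow : c ≤ ‖riemannZeta s‖ * l ^ 7 := hL σ t h1 h2 h3
  have hlp : 0 < l ^ 7 := by
    by_contra h
    have : l ^ 7 = 0 := le_antisymm (not_lt.1 h) (by positivity)
    rw [this, mul_zero] at hlow
    linarith
  -- quotient bounds
  have hq : ∀ (w : ℂ) (j : ℕ), ‖w‖ ≤ C * l ^ (j + 1) → ‖w / riemannZeta s‖ ≤ D * (1 + l) ^ (j + 8) := by
    intro w j hw
    rw [norm_div, div_le_iff₀ hzp]
    have h4 : C * l ^ (j + 1) ≤ D * l ^ (j + 8) * ‖riemannZeta s‖ := by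
      have : D * l ^ (j + 8) * ‖riemannZeta s‖ = C / c * l ^ (j + 1) * (‖riemannZeta s‖ * l ^ 7) := by
        rw [hD]; ring
      rw [this]
      calc C * l ^ (j + 1) = C / c * l ^ (j + 1) * c := by field_simp
        _ ≤ _ := by gcongr
    refine hw.trans (h4.trans ?_)
    gcongr
    linarith
  have b1 : ‖deriv riemannZeta s‖ ≤ C * l ^ (1 + 1) := by
    have := hB 1 (by norm_num) σ t h1 h2 h3
    rwa [iteratedDeriv_one] at this
  have b2 : ‖deriv (deriv riemannZeta) s‖ ≤ C * l ^ (2 + 1) := by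
    have := hB 2 (by norm_num) σ t h1 h2 h3
    rwa [iteratedDeriv_succ, iteratedDeriv_one] at this
  have b3 : ‖deriv (deriv (deriv riemannZeta)) s‖ ≤ C * l ^ (3 + 1) := by
    have := hB 3 (by norm_num) σ t h1 h2 h3
    rwa [iteratedDeriv_succ, iteratedDeriv_succ, iteratedDeriv_one] at this
  have q1 := hq _ 1 b1
  have q2 := hq _ 2 b2
  have q3 := hq _ 3 b3
  rw [iter_Phi hsH]
  unfold P2
  set a := deriv riemannZeta s / riemannZeta s
  set b := deriv (deriv riemannZeta) s / riemannZeta s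
  set d := deriv (deriv (deriv riemannZeta)) s / riemannZeta s
  set m := 1 + l with hm
  have hm1 : 1 ≤ m := by linarith
  have q1' : ‖a‖ ≤ D * m ^ 9 := q1
  have q2' : ‖b‖ ≤ D * m ^ 10 := q2
  have q3' : ‖d‖ ≤ D * m ^ 11 := q3
  have hst : |t| ≤ ‖s‖ := by
    have := Complex.abs_im_le_norm s
    simpa [hs] using this
  have hst1 : |t| ≤ ‖s - 1‖ := by
    have := Complex.abs_im_le_norm (s - 1)
    simpa [hs] using this
  have ht0 : 0 < |t| := by linarith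
  have ht1 : 1 ≤ |t| := by linarith
  have hs0 : 0 < ‖s‖ := by linarith
  have e1 : ‖-(d - 3 * a * b + 2 * a ^ 3) / s‖ ≤ (D + 3 * D * D + 2 * D ^ 3) * m ^ 27 / |t| := by
    rw [norm_div, norm_neg]
    have h5 := cplx q1' q2' q3'
    have h6 : D * m ^ 11 + 3 * (D * m ^ 9) * (D * m ^ 10) + 2 * (D * m ^ 9) ^ 3 ≤
        (D + 3 * D * D + 2 * D ^ 3) * m ^ 27 := by
      have p1 : m ^ 11 ≤ m ^ 27 := pow_le_pow_right₀ hm1 (by norm_num)
      have p2 : m ^ 19 ≤ m ^ 27 := pow_le_pow_right₀ hm1 (by norm_num)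
      calc D * m ^ 11 + 3 * (D * m ^ 9) * (D * m ^ 10) + 2 * (D * m ^ 9) ^ 3
          = D * m ^ 11 + 3 * D * D * m ^ 19 + 2 * D ^ 3 * m ^ 27 := by ring
        _ ≤ D * m ^ 27 + 3 * D * D * m ^ 27 + 2 * D ^ 3 * m ^ 27 := by gcongr
        _ = _ := by ring
    exact div_le_div₀ (by positivity) (h5.trans h6) ht0 hst
  have e2 : ‖2 * (b - a ^ 2) / s ^ 2‖ ≤ 2 * (D + D ^ 2) * m ^ 27 / |t| := by
    rw [norm_div, norm_mul, norm_pow]
    have h5 : ‖b - a ^ 2‖ ≤ (D + D ^ 2) * m ^ 27 := by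
      have p1 : m ^ 10 ≤ m ^ 27 := pow_le_pow_right₀ hm1 (by norm_num)
      have p2 : m ^ 18 ≤ m ^ 27 := pow_le_pow_right₀ hm1 (by norm_num)
      calc ‖b - a ^ 2‖ ≤ ‖b‖ + ‖a‖ ^ 2 := by
            refine (norm_sub_le _ _).trans ?_
            rw [norm_pow]
        _ ≤ D * m ^ 10 + (D * m ^ 9) ^ 2 := by gcongr
        _ = D * m ^ 10 + D ^ 2 * m ^ 18 := by ring
        _ ≤ D * m ^ 27 + D ^ 2 * m ^ 27 := by gcongr
        _ = _ := by ring
    have h6 : |t| ≤ ‖s‖ ^ 2 := by nlinarith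
    refine div_le_div₀ (by positivity) ?_ ht0 h6
    rw [Complex.norm_ofNat]
    nlinarith
  have e3 : ‖2 * a / s ^ 3‖ ≤ 2 * D * m ^ 27 / |t| := by
    rw [norm_div, norm_mul, norm_pow, Complex.norm_ofNat]
    have p1 : m ^ 9 ≤ m ^ 27 := pow_le_pow_right₀ hm1 (by norm_num)
    have h6 : |t| ≤ ‖s‖ ^ 3 := by
      have : (1 : ℝ) ≤ ‖s‖ := by linarith
      calc |t| ≤ ‖s‖ := hst
        _ = ‖s‖ ^ 1 := (pow_one _).symm
        _ ≤ ‖s‖ ^ 3 := pow_le_pow_right₀ this (by norm_num)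
    refine div_le_div₀ (by positivity) ?_ ht0 h6
    calc 2 * ‖a‖ ≤ 2 * (D * m ^ 9) := by gcongr
      _ ≤ 2 * (D * m ^ 27) := by gcongr
      _ = _ := by ring
  have e4 : ‖2 / (s - 1) ^ 3‖ ≤ 2 * m ^ 27 / |t| := by
    rw [norm_div, norm_pow, Complex.norm_ofNat]
    have h6 : |t| ≤ ‖s - 1‖ ^ 3 := by
      have : (1 : ℝ) ≤ ‖s - 1‖ := by linarith
      calc |t| ≤ ‖s - 1‖ := hst1
        _ = ‖s - 1‖ ^ 1 := (pow_one _).symm
        _ ≤ ‖s - 1‖ ^ 3 := pow_le_pow_right₀ this (by norm_num)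
    refine div_le_div₀ (by positivity) ?_ ht0 h6
    have : (1 : ℝ) ≤ m ^ 27 := one_le_pow₀ hm1
    linarith
  calc ‖-(d - 3 * a * b + 2 * a ^ 3) / s + 2 * (b - a ^ 2) / s ^ 2 - 2 * a / s ^ 3 - 2 / (s - 1) ^ 3‖
      ≤ ‖-(d - 3 * a * b + 2 * a ^ 3) / s‖ + ‖2 * (b - a ^ 2) / s ^ 2‖ + ‖2 * a / s ^ 3‖ +
        ‖2 / (s - 1) ^ 3‖ := by
        refine (norm_sub_le _ _).trans ?_
        gcongr
        refine (norm_sub_le _ _).trans ?_
        gcongr
        exact norm_add_le _ _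
    _ ≤ (D + 3 * D * D + 2 * D ^ 3) * m ^ 27 / |t| + 2 * (D + D ^ 2) * m ^ 27 / |t| +
        2 * D * m ^ 27 / |t| + 2 * m ^ 27 / |t| := by gcongr
    _ = _ := by ring

end DBound61

theorem dBound (B : ZBoundSt) (L : ZLowSt) : DBoundSt := by
  obtain ⟨C1, hC1, h1⟩ := DBound61.small
  obtain ⟨C2, hC2, h2⟩ := DBound61.large B L
  refine ⟨C1 * 3 + C2 * 109 ^ 27 * 2, by positivity, fun σ t hσ hσ2 => ?_⟩
  have h0 : 0 ≤ |t| := abs_nonneg t
  rcases le_or_gt |t| 2 with ht | ht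
  · have h3 := h1 σ t hσ hσ2 ht
    have h4 : (1 : ℝ) / 3 ≤ (1 + |t|) ^ (-(3 / 4) : ℝ) := by
      rw [Real.rpow_neg (by linarith), one_div]
      refine inv_anti₀ (Real.rpow_pos_of_pos (by linarith) _) ?_
      calc (1 + |t|) ^ (3 / 4 : ℝ) ≤ (1 + |t|) ^ (1 : ℝ) :=
            Real.rpow_le_rpow_of_exponent_le (by linarith) (by norm_num)
        _ = 1 + |t| := Real.rpow_one _
        _ ≤ 3 := by linarith
    calc _ ≤ C1 := h3
      _ = C1 * 3 * (1 / 3) := by ring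
      _ ≤ (C1 * 3 + C2 * 109 ^ 27 * 2) * (1 + |t|) ^ (-(3 / 4) : ℝ) := by
        have : C1 * 3 ≤ C1 * 3 + C2 * 109 ^ 27 * 2 := by
          have : 0 ≤ C2 * 109 ^ 27 * 2 := by positivity
          linarith
        gcongr
  · have h3 := h2 σ t hσ hσ2 ht.le
    have ht0 : 0 < |t| := by linarith
    have ht1 : 1 ≤ |t| := by linarith
    have h5 : 1 + Real.log |t| ≤ 109 * |t| ^ (1 / 108 : ℝ) := by
      have h6 := Real.log_le_rpow_div h0 (show (0 : ℝ) < 1 / 108 by norm_num)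
      have h7 : 1 ≤ |t| ^ (1 / 108 : ℝ) := Real.one_le_rpow ht1 (by norm_num)
      have h8 : |t| ^ (1 / 108 : ℝ) / (1 / 108) = 108 * |t| ^ (1 / 108 : ℝ) := by ring
      rw [h8] at h6
      linarith
    have hl0 : 0 ≤ Real.log |t| := Real.log_nonneg ht1
    have h9 : (1 + Real.log |t|) ^ 27 ≤ 109 ^ 27 * |t| ^ (1 / 4 : ℝ) := by
      calc (1 + Real.log |t|) ^ 27 ≤ (109 * |t| ^ (1 / 108 : ℝ)) ^ 27 := by gcongr
        _ = 109 ^ 27 * (|t| ^ (1 / 108 : ℝ)) ^ 27 := by rw [mul_pow]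
        _ = 109 ^ 27 * |t| ^ (1 / 4 : ℝ) := by
          rw [← Real.rpow_natCast (|t| ^ (1 / 108 : ℝ)) 27, ← Real.rpow_mul h0]
          norm_num
    have h10 : |t| ^ (1 / 4 : ℝ) / |t| ≤ 2 * (1 + |t|) ^ (-(3 / 4) : ℝ) := by
      have h11 : |t| ^ (1 / 4 : ℝ) / |t| = |t| ^ (-(3 / 4) : ℝ) := by
        rw [div_eq_iff ht0.ne']
        nth_rewrite 3 [← Real.rpow_one |t|]
        rw [← Real.rpow_add ht0]
        norm_num
      rw [h11, Real.rpow_neg h0, Real.rpow_neg (by linarith), ← div_eq_mul_inv,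
        inv_eq_one_div, div_le_div_iff₀ (Real.rpow_pos_of_pos ht0 _)
        (Real.rpow_pos_of_pos (by linarith) _), one_mul]
      calc (1 + |t|) ^ (3 / 4 : ℝ) ≤ (2 * |t|) ^ (3 / 4 : ℝ) :=
            Real.rpow_le_rpow (by linarith) (by linarith) (by norm_num)
        _ = 2 ^ (3 / 4 : ℝ) * |t| ^ (3 / 4 : ℝ) := Real.mul_rpow (by norm_num) h0
        _ ≤ 2 * |t| ^ (3 / 4 : ℝ) := by
          gcongr
          calc (2 : ℝ) ^ (3 / 4 : ℝ) ≤ 2 ^ (1 : ℝ) :=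
                Real.rpow_le_rpow_of_exponent_le (by norm_num) (by norm_num)
            _ = 2 := Real.rpow_one 2
    calc _ ≤ C2 * (1 + Real.log |t|) ^ 27 / |t| := h3
      _ ≤ C2 * (109 ^ 27 * |t| ^ (1 / 4 : ℝ)) / |t| := by gcongr
      _ = C2 * 109 ^ 27 * (|t| ^ (1 / 4 : ℝ) / |t|) := by ring
      _ ≤ C2 * 109 ^ 27 * (2 * (1 + |t|) ^ (-(3 / 4) : ℝ)) := by gcongr
      _ = C2 * 109 ^ 27 * 2 * (1 + |t|) ^ (-(3 / 4) : ℝ) := by ring
      _ ≤ (C1 * 3 + C2 * 109 ^ 27 * 2) * (1 + |t|) ^ (-(3 / 4) : ℝ) := by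
        have : C2 * 109 ^ 27 * 2 ≤ C1 * 3 + C2 * 109 ^ 27 * 2 := by
          linarith
        gcongr

end Pool.Agent.H61.PNT
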