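import Pool.Agent.H61.PNT.Defs

/-!
# Fejer smoothing: from bounds of the second derivative of `Phi` to the smoothed error term
-/

set_option autoImplicit false

namespace Pool.Agent.H61.PNT

open Complex MeasureTheory Set

theorem fejer_kf (l y : ℝ) (hl : 0 < l) (hy : y ≠ 0) :
    ∫ t in (0 : ℝ)..l, (1 - t / l) * Real.cos (t * y) =
      (1 - Real.cos (l * y)) / (l * y ^ 2) := by
  have hd : ∀ t ∈ uIcc (0 : ℝ) l, HasDerivAt (fun t : ℝ => (1 - t / l) * (Real.sin (t * y) / y) -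
      Real.cos (t * y) / (l * y ^ 2)) ((1 - t / l) * Real.cos (t * y)) t := by
    intro t _
    have h1 : HasDerivAt (fun t : ℝ => t * y) y t := by
      simpa using (hasDerivAt_id t).mul_const y
    have h2 := h1.sin.div_const y
    have h3 := h1.cos.div_const (l * y ^ 2)
    have h4 : HasDerivAt (fun t : ℝ => 1 - t / l) (-(1 / l)) t := by
      simpa using ((hasDerivAt_id t).div_const l).const_sub 1
    have h5 := (h4.mul h2).sub h3
    refine h5.congr_deriv ?_
    field_simp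
    ring
  rw [intervalIntegral.integral_eq_sub_of_hasDerivAt hd
    (Continuous.intervalIntegrable (by fun_prop) _ _)]
  simp only [zero_mul, Real.sin_zero, Real.cos_zero]
  field_simp
  ring

theorem fejer_pow (l : ℝ) (hl : 1 ≤ l) :
    ∫ t in (0 : ℝ)..l, (1 + t) ^ (-(3 / 4) : ℝ) ≤ 8 * l ^ (1 / 4 : ℝ) := by
  have hd : ∀ t ∈ uIcc (0 : ℝ) l, HasDerivAt (fun t : ℝ => 4 * (1 + t) ^ (1 / 4 : ℝ))
      ((1 + t) ^ (-(3 / 4) : ℝ)) t := by
    intro t ht
    rw [uIcc_of_le (by linarith)] at ht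
    have h0 : (0 : ℝ) < 1 + t := by linarith [ht.1]
    have h1 : HasDerivAt (fun t : ℝ => 1 + t) 1 t := by
      simpa using (hasDerivAt_id t).const_add 1
    have h2 := (h1.rpow_const (p := (1 / 4 : ℝ)) (Or.inl h0.ne')).const_mul 4
    refine h2.congr_deriv ?_
    have : (1 / 4 : ℝ) - 1 = -(3 / 4) := by norm_num
    rw [this]
    ring
  have hint : IntervalIntegrable (fun t : ℝ => (1 + t) ^ (-(3 / 4) : ℝ)) volume 0 l := by
    apply ContinuousOn.intervalIntegrable
    intro t ht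
    rw [uIcc_of_le (by linarith)] at ht
    have h0 : (0 : ℝ) < 1 + t := by linarith [ht.1]
    exact (ContinuousAt.rpow_const (by fun_prop) (Or.inl h0.ne')).continuousWithinAt
  rw [intervalIntegral.integral_eq_sub_of_hasDerivAt hd hint]
  have h1 : (1 + l) ^ (1 / 4 : ℝ) ≤ 2 * l ^ (1 / 4 : ℝ) := by
    calc (1 + l) ^ (1 / 4 : ℝ) ≤ (2 * l) ^ (1 / 4 : ℝ) :=
          Real.rpow_le_rpow (by linarith) (by linarith) (by norm_num)
      _ = (2 : ℝ) ^ (1 / 4 : ℝ) * l ^ (1 / 4 : ℝ) := Real.mul_rpow (by norm_num) (by linarith)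
      _ ≤ 2 * l ^ (1 / 4 : ℝ) := by
          apply mul_le_mul_of_nonneg_right _ (Real.rpow_nonneg (by linarith) _)
          calc (2 : ℝ) ^ (1 / 4 : ℝ) ≤ (2 : ℝ) ^ (1 : ℝ) :=
                Real.rpow_le_rpow_of_exponent_le (by norm_num) (by norm_num)
            _ = 2 := Real.rpow_one 2
  have h2 : (0 : ℝ) ≤ (1 + 0) ^ (1 / 4 : ℝ) := Real.rpow_nonneg (by norm_num) _
  linarith

theorem fejer (D : DBoundSt) (L : LaplaceSt) : FejerSt := by
  obtain ⟨C, hC, hD⟩ := D
  refine ⟨16 * C, by positivity, ?_⟩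
  intro v l w hv hl
  have hv0 : 0 < v := by linarith
  have hl0 : 0 < l := by linarith
  set σ : ℝ := 1 + 1 / v with hσ
  have hσ1 : 1 < σ := by
    have : 0 < 1 / v := by positivity
    linarith
  have hσ2 : σ ≤ 2 := by
    have : 1 / v ≤ 1 := by rw [div_le_one hv0]; exact hv
    linarith
  set g : ℝ → ℝ := fun x => (Chebyshev.psi x - x) * Real.log x ^ 2 with hg
  set h : ℝ → ℝ := fun x => g x * x ^ (-(2 + 1 / v) : ℝ) with hh
  -- pointwise identity
  have hpt : ∀ t : ℝ, ∀ x ∈ Ioi (1 : ℝ), ((g x : ℝ) : ℂ) * (x : ℂ) ^ (-(((σ : ℂ) + (t : ℂ) * I) + 1)) =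
      (h x : ℂ) * cexp (-(t * Real.log x : ℝ) * I) := by
    intro t x hx
    have hx0 : (0 : ℝ) < x := by
      have : (1 : ℝ) < x := hx
      linarith
    have hxc : (x : ℂ) ≠ 0 := by exact_mod_cast hx0.ne'
    have e1 : (-(((σ : ℂ) + (t : ℂ) * I) + 1)) = ((-(2 + 1 / v) : ℝ) : ℂ) + (-(t : ℂ) * I) := by
      rw [hσ]; push_cast; ring
    rw [e1, Complex.cpow_add _ _ hxc, ← Complex.ofReal_cpow hx0.le]
    rw [hh]
    simp only [Complex.ofReal_mul]
    rw [mul_assoc]
    congr 2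
    rw [Complex.cpow_def_of_ne_zero hxc, ← Complex.ofReal_log hx0.le]
    congr 1
    push_cast
    ring
  -- integrability of h
  have hint : IntegrableOn h (Ioi 1) := by
    have h1 := (L ((σ : ℂ) + ((0 : ℝ) : ℂ) * I) (by simpa using hσ1)).1
    have h2 : IntegrableOn (fun x : ℝ => (((g x : ℝ) : ℂ) *
        (x : ℂ) ^ (-(((σ : ℂ) + ((0 : ℝ) : ℂ) * I) + 1))).re) (Ioi 1) := h1.re
    refine h2.congr_fun ?_ measurableSet_Ioi
    intro x hx
    show (((g x : ℝ) : ℂ) * (x : ℂ) ^ (-(((σ : ℂ) + ((0 : ℝ) : ℂ) * I) + 1))).re = h x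
    rw [hpt 0 x hx]
    simp
  -- the cosine transform
  have hc : ∀ t : ℝ, |∫ x in Ioi (1 : ℝ), h x * Real.cos (t * (w - Real.log x))| ≤
      C * (1 + |t|) ^ (-(3 / 4) : ℝ) := by
    intro t
    obtain ⟨h1, h2⟩ := L ((σ : ℂ) + (t : ℂ) * I) (by simpa using hσ1)
    have h3 : Integrable (fun x : ℝ => cexp ((t * w : ℝ) * I) * (((g x : ℝ) : ℂ) *
        (x : ℂ) ^ (-(((σ : ℂ) + (t : ℂ) * I) + 1)))) (volume.restrict (Ioi 1)) :=
      h1.const_mul _
    have h4 : ∫ x in Ioi (1 : ℝ), h x * Real.cos (t * (w - Real.log x)) =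
        (∫ x in Ioi (1 : ℝ), cexp ((t * w : ℝ) * I) * (((g x : ℝ) : ℂ) *
        (x : ℂ) ^ (-(((σ : ℂ) + (t : ℂ) * I) + 1)))).re := by
      have h5 := integral_re h3
      have h6 : ∫ x in Ioi (1 : ℝ), h x * Real.cos (t * (w - Real.log x)) =
          ∫ x in Ioi (1 : ℝ), RCLike.re (cexp ((t * w : ℝ) * I) * (((g x : ℝ) : ℂ) *
        (x : ℂ) ^ (-(((σ : ℂ) + (t : ℂ) * I) + 1)))) := by
        apply setIntegral_congr_fun measurableSet_Ioi
        intro x hx
        show h x * Real.cos (t * (w - Real.log x)) = (cexp ((t * w : ℝ) * I) * (((g x : ℝ) : ℂ) *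
          (x : ℂ) ^ (-(((σ : ℂ) + (t : ℂ) * I) + 1)))).re
        rw [hpt t x hx]
        have e2 : cexp ((t * w : ℝ) * I) * ((h x : ℂ) * cexp (-(t * Real.log x : ℝ) * I)) =
            (h x : ℂ) * cexp ((t * (w - Real.log x) : ℝ) * I) := by
          rw [mul_left_comm, ← Complex.exp_add]
          congr 2
          push_cast
          ring
        rw [e2, Complex.re_ofReal_mul, Complex.exp_ofReal_mul_I_re]
      rw [h6, h5]
      rfl
    rw [h4, integral_const_mul, h2]
    calc |(cexp ((t * w : ℝ) * I) * iteratedDeriv 2 Phi ((σ : ℂ) + (t : ℂ) * I)).re|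
        ≤ ‖cexp ((t * w : ℝ) * I) * iteratedDeriv 2 Phi ((σ : ℂ) + (t : ℂ) * I)‖ :=
          Complex.abs_re_le_norm _
      _ = ‖iteratedDeriv 2 Phi ((σ : ℂ) + (t : ℂ) * I)‖ := by
          rw [norm_mul, Complex.norm_exp_ofReal_mul_I, one_mul]
      _ ≤ _ := hD σ t hσ1 hσ2
  -- Fubini
  have hker : ∫ x in Ioi (1 : ℝ), h x * kf l (w - Real.log x) =
      2 * ∫ x in Ioi (1 : ℝ), ∫ t in Ioc (0 : ℝ) l,
        h x * ((1 - t / l) * Real.cos (t * (w - Real.log x))) := by
    rw [← integral_const_mul]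
    apply integral_congr_ae
    have hne : ∀ᵐ x ∂(volume.restrict (Ioi (1 : ℝ))), x ≠ Real.exp w := by
      apply ae_restrict_of_ae
      rw [ae_iff]
      simp
    filter_upwards [hne, ae_restrict_mem measurableSet_Ioi] with x hx hx1
    have hx0 : (0 : ℝ) < x := by
      have : (1 : ℝ) < x := hx1
      linarith
    have hy : w - Real.log x ≠ 0 := by
      intro hy
      apply hx
      have : Real.log x = w := by linarith
      rw [← this, Real.exp_log hx0]
    rw [integral_const_mul, ← intervalIntegral.integral_of_le hl0.le,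
      fejer_kf l _ hl0 hy]
    unfold kf
    ring
  have hswap : ∫ x in Ioi (1 : ℝ), ∫ t in Ioc (0 : ℝ) l,
        h x * ((1 - t / l) * Real.cos (t * (w - Real.log x))) =
      ∫ t in Ioc (0 : ℝ) l, ∫ x in Ioi (1 : ℝ),
        h x * ((1 - t / l) * Real.cos (t * (w - Real.log x))) := by
    apply integral_integral_swap
    have hI : Integrable (fun p : ℝ × ℝ => h p.1)
        ((volume.restrict (Ioi (1 : ℝ))).prod (volume.restrict (Ioc (0 : ℝ) l))) :=
      Integrable.comp_fst hint _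
    have hm : AEStronglyMeasurable (fun p : ℝ × ℝ => (1 - p.2 / l) *
        Real.cos (p.2 * (w - Real.log p.1)))
        ((volume.restrict (Ioi (1 : ℝ))).prod (volume.restrict (Ioc (0 : ℝ) l))) := by
      apply Measurable.aestronglyMeasurable
      fun_prop
    have hb : ∀ᵐ p ∂((volume.restrict (Ioi (1 : ℝ))).prod (volume.restrict (Ioc (0 : ℝ) l))),
        ‖(1 - p.2 / l) * Real.cos (p.2 * (w - Real.log p.1))‖ ≤ 1 := by
      rw [Measure.prod_restrict]
      filter_upwards [ae_restrict_mem (measurableSet_Ioi.prod measurableSet_Ioc)] with p hp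
      have h1 : 0 < p.2 := hp.2.1
      have h2 : p.2 ≤ l := hp.2.2
      have h3 : 0 ≤ p.2 / l := by positivity
      have h4 : p.2 / l ≤ 1 := by rw [div_le_one hl0]; exact h2
      rw [norm_mul]
      have h5 : ‖(1 - p.2 / l : ℝ)‖ ≤ 1 := by
        rw [Real.norm_eq_abs, abs_le]; constructor <;> linarith
      have h6 : ‖Real.cos (p.2 * (w - Real.log p.1))‖ ≤ 1 := by
        rw [Real.norm_eq_abs]; exact Real.abs_cos_le_one _
      calc _ ≤ 1 * 1 := mul_le_mul h5 h6 (norm_nonneg _) zero_le_one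
        _ = 1 := by norm_num
    exact hI.mul_bdd hm hb
  have hmain : ∫ x in Ioi (1 : ℝ), h x * kf l (w - Real.log x) =
      2 * ∫ t in (0 : ℝ)..l, (1 - t / l) *
        ∫ x in Ioi (1 : ℝ), h x * Real.cos (t * (w - Real.log x)) := by
    rw [hker, hswap, intervalIntegral.integral_of_le hl0.le]
    congr 1
    apply integral_congr_ae
    filter_upwards with t
    rw [← integral_const_mul]
    apply integral_congr_ae
    filter_upwards with x
    ring
  have hfin : |∫ t in (0 : ℝ)..l, (1 - t / l) *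
        ∫ x in Ioi (1 : ℝ), h x * Real.cos (t * (w - Real.log x))| ≤
      ∫ t in (0 : ℝ)..l, C * (1 + t) ^ (-(3 / 4) : ℝ) := by
    rw [← Real.norm_eq_abs]
    apply intervalIntegral.norm_integral_le_of_norm_le hl0.le
    · filter_upwards with t ht
      have h1 : 0 < t := ht.1
      have h2 : t ≤ l := ht.2
      have h3 : 0 ≤ t / l := by positivity
      have h4 : t / l ≤ 1 := by rw [div_le_one hl0]; exact h2
      rw [norm_mul]
      have h5 : ‖(1 - t / l : ℝ)‖ ≤ 1 := by
        rw [Real.norm_eq_abs, abs_le]; constructor <;> linarith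
      have h6 := hc t
      rw [abs_of_pos h1, ← Real.norm_eq_abs] at h6
      calc _ ≤ 1 * (C * (1 + t) ^ (-(3 / 4) : ℝ)) :=
            mul_le_mul h5 h6 (norm_nonneg _) zero_le_one
        _ = _ := one_mul _
    · apply ContinuousOn.intervalIntegrable
      intro t ht
      rw [uIcc_of_le hl0.le] at ht
      have h0 : (0 : ℝ) < 1 + t := by linarith [ht.1]
      exact (continuousAt_const.mul
        (ContinuousAt.rpow_const (by fun_prop) (Or.inl h0.ne'))).continuousWithinAt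
  have hgoal : ∫ x in Ioi (1 : ℝ), (Chebyshev.psi x - x) * Real.log x ^ 2 *
      x ^ (-(2 + 1 / v) : ℝ) * kf l (w - Real.log x) =
      ∫ x in Ioi (1 : ℝ), h x * kf l (w - Real.log x) := rfl
  rw [hgoal, hmain, abs_mul, abs_of_pos (by norm_num : (0 : ℝ) < 2)]
  rw [intervalIntegral.integral_const_mul] at hfin
  have hp := fejer_pow l hl
  have : C * ∫ t in (0 : ℝ)..l, (1 + t) ^ (-(3 / 4) : ℝ) ≤ C * (8 * l ^ (1 / 4 : ℝ)) :=
    mul_le_mul_of_nonneg_left hp hC.le
  linarith

end Pool.Agent.H61.PNT
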