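import Pool.Agent.H61.PNT.Defs

set_option autoImplicit false

namespace Pool.Agent.H61.PNT

open Complex MeasureTheory Set Filter Topology

namespace La

/-- the error term, cut off at `1` -/
noncomputable def G (x : ℝ) : ℂ := (Ioi (1 : ℝ)).indicator (fun x => ((Chebyshev.psi x - x : ℝ) : ℂ)) x

lemma G_of_lt {x : ℝ} (hx : 1 < x) : G x = ((Chebyshev.psi x - x : ℝ) : ℂ) :=
  Set.indicator_of_mem (show x ∈ Ioi (1 : ℝ) from hx) _

lemma G_of_le {x : ℝ} (hx : x ≤ 1) : G x = 0 :=
  Set.indicator_of_notMem (fun h => absurd (show 1 < x from h) (not_lt.2 hx)) _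

lemma G_bound (x : ℝ) : ‖G x‖ ≤ 7 * |x| := by
  rcases le_or_gt x 1 with h | h
  · rw [G_of_le h, norm_zero]; positivity
  · rw [G_of_lt h, norm_real, Real.norm_eq_abs, abs_of_pos (show 0 < x by linarith)]
    have h1 := Chebyshev.psi_nonneg x
    have h2 := Chebyshev.psi_le_const_mul_self (show 0 ≤ x by linarith)
    have h3 : Real.log 4 ≤ 2 := by
      have : Real.log 4 = 2 * Real.log 2 := by
        rw [show (4 : ℝ) = 2 ^ 2 by norm_num, Real.log_pow]; push_cast; ring
      rw [this]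
      have := Real.log_two_lt_d9
      linarith
    have h4 : (Real.log 4 + 4) * x ≤ 6 * x := by gcongr; linarith
    rw [abs_le]
    constructor <;> linarith

lemma G_meas : Measurable G := by
  unfold G
  refine Measurable.indicator ?_ measurableSet_Ioi
  exact measurable_ofReal.comp (Chebyshev.psi_mono.measurable.sub measurable_id)

lemma G_loc : LocallyIntegrableOn G (Ioi 0) := by
  have h : LocallyIntegrable G := by
    refine LocallyIntegrable.mono (f := fun x : ℝ => 7 * |x|) ?_ G_meas.aestronglyMeasurable ?_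
    · exact (continuous_const.mul continuous_abs).locallyIntegrable
    · refine Filter.Eventually.of_forall fun x => ?_
      rw [Real.norm_of_nonneg (by positivity)]
      exact G_bound x
  exact h.locallyIntegrableOn _

lemma G_top : G =O[atTop] (fun x : ℝ => x ^ (-(-1) : ℝ)) := by
  refine Asymptotics.IsBigO.of_bound 7 ?_
  filter_upwards [eventually_gt_atTop 0] with x hx
  rw [neg_neg, Real.rpow_one, Real.norm_eq_abs]
  exact G_bound x

lemma G_bot (b : ℝ) : G =O[𝓝[>] 0] (fun x : ℝ => x ^ (-b)) := by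
  refine Asymptotics.IsBigO.of_bound 1 ?_
  have : Iio (1 : ℝ) ∈ 𝓝[>] (0 : ℝ) := mem_nhdsWithin_of_mem_nhds (Iio_mem_nhds one_pos)
  filter_upwards [this] with x hx
  rw [G_of_le (le_of_lt hx), norm_zero]
  positivity

/-- `log * G` -/
noncomputable def G1 (x : ℝ) : ℂ := Real.log x • G x

lemma G1_loc : LocallyIntegrableOn G1 (Ioi 0) := by
  refine LocallyIntegrableOn.continuousOn_smul isOpen_Ioi.isLocallyClosed G_loc ?_
  exact Real.continuousOn_log.mono fun x hx => ne_of_gt hx

lemma G1_top {a : ℝ} (ha : a < -1) : G1 =O[atTop] (fun x : ℝ => x ^ (-a)) := by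
  have h1 := (isLittleO_log_rpow_atTop (show 0 < -1 - a by linarith)).isBigO
  have h2 := h1.smul G_top
  refine h2.congr' (Filter.EventuallyEq.rfl) ?_
  filter_upwards [eventually_gt_atTop 0] with x hx
  rw [smul_eq_mul, ← Real.rpow_add hx]
  congr 1; ring

lemma G1_bot (b : ℝ) : G1 =O[𝓝[>] 0] (fun x : ℝ => x ^ (-b)) := by
  refine Asymptotics.IsBigO.of_bound 1 ?_
  have : Iio (1 : ℝ) ∈ 𝓝[>] (0 : ℝ) := mem_nhdsWithin_of_mem_nhds (Iio_mem_nhds one_pos)
  filter_upwards [this] with x hx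
  rw [G1, G_of_le (le_of_lt hx), smul_zero, norm_zero]
  positivity

/-- the integral on `(1, ∞)` as a Mellin transform -/
lemma mellin_eq (h : ℝ → ℂ) (h0 : ∀ x, x ≤ 1 → h x = 0) (s : ℂ) :
    mellin h (-s) = ∫ x in Ioi (1 : ℝ), h x * (x : ℂ) ^ (-(s + 1)) := by
  unfold mellin
  have e : ∀ t : ℝ, (t : ℂ) ^ (-s - 1) • h t =
      (Ioi (1 : ℝ)).indicator (fun x => h x * (x : ℂ) ^ (-(s + 1))) t := by
    intro t
    rcases le_or_gt t 1 with ht | ht
    · rw [Set.indicator_of_notMem (fun h' : t ∈ Ioi (1 : ℝ) => absurd (mem_Ioi.1 h') (not_lt.2 ht)), h0 t ht,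
        smul_zero]
    · rw [Set.indicator_of_mem (show t ∈ Ioi (1 : ℝ) from ht), smul_eq_mul, mul_comm]
      congr 2; ring
  simp_rw [e]
  rw [setIntegral_indicator measurableSet_Ioi]
  congr 2
  ext x
  simp only [mem_inter_iff, mem_Ioi]
  constructor
  · exact fun h => h.2
  · exact fun h => ⟨by linarith, h⟩

lemma conv_eq (h : ℝ → ℂ) (s : ℂ) (hc : MellinConvergent h (-s)) :
    IntegrableOn (fun x => h x * (x : ℂ) ^ (-(s + 1))) (Ioi 1) := by
  have h1 : IntegrableOn (fun t : ℝ => (t : ℂ) ^ (-s - 1) • h t) (Ioi 1) :=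
    IntegrableOn.mono_set hc (Ioi_subset_Ioi (by norm_num))
  refine h1.congr_fun (fun t ht => ?_) measurableSet_Ioi
  simp only [smul_eq_mul]
  rw [mul_comm]
  congr 2; ring

lemma hasDeriv_G {s : ℂ} (hs : 1 < s.re) :
    MellinConvergent G (-s) ∧ HasDerivAt (mellin G) (mellin G1 (-s)) (-s) := by
  have h := mellin_hasDerivAt_of_isBigO_rpow (s := -s) (b := -s.re - 1) G_loc G_top (by simp; linarith)
    (G_bot _) (by simp)
  refine ⟨?_, h.2⟩
  exact mellinConvergent_of_isBigO_rpow G_loc G_top (by simp; linarith) (G_bot (-s.re - 1)) (by simp)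

lemma hasDeriv_G1 {s : ℂ} (hs : 1 < s.re) :
    MellinConvergent (fun t => Real.log t • G1 t) (-s) ∧
      HasDerivAt (mellin G1) (mellin (fun t => Real.log t • G1 t) (-s)) (-s) := by
  refine mellin_hasDerivAt_of_isBigO_rpow (s := -s) (a := (-s.re - 1) / 2) (b := -s.re - 1) G1_loc
    (G1_top (by linarith)) (by simp; linarith) (G1_bot _) (by simp)


lemma psi_O : (fun n : ℕ => ∑ k ∈ Finset.Icc 1 n, ArithmeticFunction.vonMangoldt k) =O[atTop]
    fun n : ℕ => (n : ℝ) ^ (1 : ℝ) := by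
  refine Asymptotics.IsBigO.of_bound (Real.log 4 + 4) ?_
  refine Filter.Eventually.of_forall fun n => ?_
  have h1 : ∑ k ∈ Finset.Icc 1 n, ArithmeticFunction.vonMangoldt k = Chebyshev.psi n := by
    rw [Chebyshev.psi, Nat.floor_natCast]
    rfl
  rw [h1, Real.norm_of_nonneg (Chebyshev.psi_nonneg _), Real.rpow_one, Real.norm_of_nonneg (by positivity)]
  exact Chebyshev.psi_le_const_mul_self (by positivity)

lemma phi_eq {s : ℂ} (hs : 1 < s.re) : Phi s = mellin G (-s) := by
  have hs0 : s ≠ 0 := by rintro rfl; simp at hs; linarith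
  have hs1 : s ≠ 1 := by rintro rfl; simp at hs
  have h1 := LSeries_eq_mul_integral_of_nonneg (fun n => ArithmeticFunction.vonMangoldt n) zero_le_one
    (s := s) (by simpa using hs) psi_O (fun n => ArithmeticFunction.vonMangoldt_nonneg)
  rw [ArithmeticFunction.LSeries_vonMangoldt_eq_deriv_riemannZeta_div hs] at h1
  have h2 : ∫ x in Ioi (1 : ℝ), (x : ℂ) ^ (-s) = 1 / (s - 1) := by
    rw [integral_Ioi_cpow_of_lt (by simp; linarith) one_pos]
    simp only [ofReal_one, one_cpow]
    rw [show -s + 1 = -(s - 1) by ring, neg_div_neg_eq]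
  have i1 := conv_eq G s (hasDeriv_G hs).1
  have i2 : IntegrableOn (fun x : ℝ => (x : ℂ) ^ (-s)) (Ioi 1) :=
    integrableOn_Ioi_cpow_of_lt (by simp; linarith) one_pos
  have h3 : ∫ t in Ioi (1 : ℝ), (∑ k ∈ Finset.Icc 1 ⌊t⌋₊, (ArithmeticFunction.vonMangoldt k : ℂ)) *
      (t : ℂ) ^ (-(s + 1)) = mellin G (-s) + 1 / (s - 1) := by
    rw [mellin_eq G (fun x hx => G_of_le hx) s, ← h2, ← integral_add i1 i2]
    refine setIntegral_congr_fun measurableSet_Ioi fun t ht => ?_
    have ht1 : (1 : ℝ) < t := ht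
    have ht0 : (t : ℂ) ≠ 0 := by exact_mod_cast (show t ≠ 0 by linarith)
    rw [G_of_lt ht1]
    have e1 : (∑ k ∈ Finset.Icc 1 ⌊t⌋₊, (ArithmeticFunction.vonMangoldt k : ℂ)) = (Chebyshev.psi t : ℂ) := by
      rw [Chebyshev.psi]
      push_cast
      rfl
    have e2 : (t : ℂ) ^ (-s) = t * (t : ℂ) ^ (-(s + 1)) := by
      have : -s = 1 + (-(s + 1)) := by ring
      conv_lhs => rw [this]
      rw [cpow_add _ _ ht0, cpow_one]
    rw [e1, e2]
    push_cast
    ring
  rw [h3] at h1
  unfold Phi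
  have h4 : -deriv riemannZeta s / (s * riemannZeta s) = mellin G (-s) + 1 / (s - 1) := by
    rw [mul_comm s, ← div_div, h1]
    field_simp
  rw [h4]
  ring

end La

open La in
/-- The second derivative of `Phi` as an integral. -/
theorem laplace : LaplaceSt := by
  intro s hs
  have ho : IsOpen {z : ℂ | 1 < z.re} := isOpen_lt continuous_const continuous_re
  have hneg : HasDerivAt (fun z : ℂ => -z) (-1) s := hasDerivAt_neg s
  have e1 : Phi =ᶠ[𝓝 s] fun z => mellin G (-z) := by
    filter_upwards [ho.mem_nhds hs] with z hz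
    exact phi_eq hz
  have d1 : ∀ z : ℂ, 1 < z.re → HasDerivAt (fun z => mellin G (-z)) (-mellin G1 (-z)) z := by
    intro z hz
    have h := (hasDeriv_G hz).2.comp z (hasDerivAt_neg z)
    refine h.congr_deriv ?_
    ring
  have e2 : deriv (fun z => mellin G (-z)) =ᶠ[𝓝 s] fun z => -mellin G1 (-z) := by
    filter_upwards [ho.mem_nhds hs] with z hz
    exact (d1 z hz).deriv
  have d2 : HasDerivAt (fun z => -mellin G1 (-z)) (mellin (fun t => Real.log t • G1 t) (-s)) s := by
    have h := ((hasDeriv_G1 hs).2.comp s (hasDerivAt_neg s)).neg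
    refine h.congr_deriv ?_
    ring
  have e3 : iteratedDeriv 2 Phi s = mellin (fun t => Real.log t • G1 t) (-s) := by
    rw [e1.iteratedDeriv_eq 2, iteratedDeriv_succ, iteratedDeriv_one, e2.deriv_eq]
    exact d2.deriv
  have hc := (hasDeriv_G1 hs).1
  have h0 : ∀ x : ℝ, x ≤ 1 → (fun t => Real.log t • G1 t) x = 0 := by
    intro x hx
    simp only [G1, G_of_le hx, smul_zero]
  have hcong : ∀ x ∈ Ioi (1 : ℝ), (fun t => Real.log t • G1 t) x * (x : ℂ) ^ (-(s + 1)) =
      (((Chebyshev.psi x - x) * Real.log x ^ 2 : ℝ) : ℂ) * (x : ℂ) ^ (-(s + 1)) := by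
    intro x hx
    simp only [G1, G_of_lt (mem_Ioi.1 hx), real_smul]
    push_cast
    ring
  refine ⟨(conv_eq _ s hc).congr_fun hcong measurableSet_Ioi, ?_⟩
  rw [e3, mellin_eq _ h0 s]
  exact (setIntegral_congr_fun measurableSet_Ioi hcong).symm

end Pool.Agent.H61.PNT
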