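import Pool.Agent.H61.PNT.Defs

/-!
# From the smoothed error term to the prime number theorem
-/

set_option autoImplicit false

namespace Pool.Agent.H61.PNT

open MeasureTheory Set

namespace Tauber

theorem kf_nonneg {l : ℝ} (hl : 0 < l) (y : ℝ) : 0 ≤ kf l y := by
  unfold kf
  have := Real.cos_le_one (l * y)
  apply div_nonneg
  · linarith
  · positivity

theorem kf_le_inv {l : ℝ} (hl : 0 < l) (y : ℝ) : kf l y ≤ 4 / (l * y ^ 2) := by
  unfold kf
  have := Real.neg_one_le_cos (l * y)
  apply div_le_div_of_nonneg_right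
  · linarith
  · positivity

theorem kf_le {l : ℝ} (hl : 0 < l) (y : ℝ) : kf l y ≤ l := by
  unfold kf
  rcases eq_or_ne y 0 with rfl | hy
  · simp [hl.le]
  have h1 := Real.one_sub_sq_div_two_le_cos (x := l * y)
  have h2 : 0 < l * y ^ 2 := by positivity
  rw [div_le_iff₀ h2]
  nlinarith

theorem kf_le_int {l : ℝ} (hl : 1 ≤ l) (y : ℝ) : kf l y ≤ 8 * l * (1 + y ^ 2)⁻¹ := by
  have hl0 : 0 < l := by linarith
  rw [← div_eq_mul_inv]
  by_cases hy : y ^ 2 ≤ 1
  · refine (kf_le hl0 y).trans ?_
    rw [le_div_iff₀ (by positivity)]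
    nlinarith
  · have hy : 1 < y ^ 2 := by linarith
    refine (kf_le_inv hl0 y).trans ?_
    rw [div_le_div_iff₀ (by positivity) (by positivity)]
    have h1 : y ^ 2 ≤ l ^ 2 * y ^ 2 :=
      le_mul_of_one_le_left (sq_nonneg y) (one_le_pow₀ hl)
    nlinarith

theorem le_kf {l y : ℝ} (hl : 0 < l) (hy : y ≠ 0) (hy' : |y| ≤ 1 / l) : l / 4 ≤ kf l y := by
  unfold kf
  have h1 : |l * y| ≤ 1 := by
    rw [abs_mul, abs_of_pos hl]
    calc l * |y| ≤ l * (1 / l) := mul_le_mul_of_nonneg_left hy' hl.le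
      _ = 1 := by field_simp
  have hpi := Real.pi_gt_three
  have h2 := Real.cos_le_one_sub_mul_cos_sq (x := l * y) (by linarith)
  have h3 : (1 : ℝ) / 8 ≤ 2 / Real.pi ^ 2 := by
    rw [div_le_div_iff₀ (by norm_num) (by positivity)]
    have := Real.pi_le_four
    nlinarith
  have h4 : 1 / 8 * (l * y) ^ 2 ≤ 2 / Real.pi ^ 2 * (l * y) ^ 2 :=
    mul_le_mul_of_nonneg_right h3 (by positivity)
  have h5 : 0 < l * y ^ 2 := by positivity
  rw [le_div_iff₀ h5]
  nlinarith

theorem kf_measurable (l : ℝ) : Measurable (kf l) := by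
  unfold kf
  fun_prop

theorem integrable_kf {l : ℝ} (hl : 1 ≤ l) (w : ℝ) : Integrable (fun u => kf l (w - u)) := by
  have h1 : Integrable (kf l) := by
    refine Integrable.mono' (integrable_inv_one_add_sq.const_mul (8 * l))
      (kf_measurable l).aestronglyMeasurable (Filter.Eventually.of_forall fun y => ?_)
    rw [Real.norm_of_nonneg (kf_nonneg (by linarith) y)]
    exact kf_le_int hl y
  exact h1.comp_sub_left w

/-- The tail integral. -/
theorem tail {K δ : ℝ} (hK : 0 ≤ K) (hδ : 0 < δ) (w : ℝ) :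
    Integrable (fun u : ℝ => indicator {t : ℝ | δ < |t|} (fun t => K / t ^ 2) (u - w)) ∧
    ∫ u : ℝ, indicator {t : ℝ | δ < |t|} (fun t => K / t ^ 2) (u - w) = 2 * K / δ := by
  have hm : MeasurableSet {t : ℝ | δ < |t|} := measurableSet_lt measurable_const measurable_norm
  have hint : Integrable (indicator {t : ℝ | δ < |t|} (fun t : ℝ => K / t ^ 2)) := by
    refine Integrable.mono' (integrable_inv_one_add_sq.const_mul (K * (1 + 1 / δ ^ 2)))
      ((Measurable.indicator (by fun_prop) hm).aestronglyMeasurable)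
      (Filter.Eventually.of_forall fun y => ?_)
    rw [Real.norm_of_nonneg (indicator_nonneg (fun t _ => by positivity) y)]
    by_cases hy : y ∈ {t : ℝ | δ < |t|}
    · rw [indicator_of_mem hy]
      have h1 : δ ^ 2 < y ^ 2 := by
        rw [← sq_abs y]
        exact pow_lt_pow_left₀ hy hδ.le (by norm_num)
      have h2 : 0 < y ^ 2 := lt_trans (by positivity) h1
      rw [← div_eq_mul_inv, div_le_div_iff₀ h2 (by positivity)]
      have h3 : 1 ≤ y ^ 2 / δ ^ 2 := by
        rw [le_div_iff₀ (by positivity)]; linarith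
      have h4 : K * (1 + 1 / δ ^ 2) * y ^ 2 = K * (y ^ 2 + y ^ 2 / δ ^ 2) := by ring
      rw [h4]
      exact mul_le_mul_of_nonneg_left (by linarith) hK
    · rw [indicator_of_notMem hy]
      positivity
  refine ⟨hint.comp_sub_right w, ?_⟩
  rw [integral_sub_right_eq_self (indicator {t : ℝ | δ < |t|} (fun t : ℝ => K / t ^ 2)) w]
  have h1 : (indicator {t : ℝ | δ < |t|} (fun t : ℝ => K / t ^ 2)) =
      fun x => (indicator (Ioi δ) (fun t : ℝ => K / t ^ 2)) |x| := by
    ext x
    by_cases hx : δ < |x|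
    · rw [indicator_of_mem (show x ∈ {t : ℝ | δ < |t|} from hx),
        indicator_of_mem (show |x| ∈ Ioi δ from hx), sq_abs]
    · rw [indicator_of_notMem (show x ∉ {t : ℝ | δ < |t|} from hx),
        indicator_of_notMem (show |x| ∉ Ioi δ from hx)]
  rw [h1, integral_comp_abs, setIntegral_indicator measurableSet_Ioi, Ioi_inter_Ioi,
    max_eq_right hδ.le]
  have h2 : ∫ x in Ioi δ, K / x ^ 2 = ∫ x in Ioi δ, K * x ^ (-2 : ℝ) := by
    apply setIntegral_congr_fun measurableSet_Ioi
    intro x hx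
    have hx0 : 0 < x := lt_trans hδ hx
    simp only
    rw [Real.rpow_neg hx0.le, div_eq_mul_inv]
    norm_num
  rw [h2, integral_const_mul, integral_Ioi_rpow_of_lt (by norm_num) hδ]
  have h3 : δ ^ ((-2 : ℝ) + 1) = 1 / δ := by
    rw [show (-2 : ℝ) + 1 = -1 by norm_num, Real.rpow_neg_one, one_div]
  rw [h3]
  field_simp
  ring

/-- The lower bound for a smoothed integral. -/
theorem core {g : ℝ → ℝ} (hg : Measurable g) {G m l d w : ℝ} (hG : 0 ≤ G) (hm : 0 ≤ m)
    (hl : 1 ≤ l) (hd : 0 < d) (hld : 2 ≤ l * d) (hw : d / 2 < w)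
    (hb : ∀ u, 0 < u → |g u| ≤ G) (hlow : ∀ u, |u - w| ≤ d / 2 → m ≤ g u) :
    m / 2 - 16 * G / (l * d) ≤ ∫ u in Ioi (0 : ℝ), g u * kf l (w - u) := by
  have hl0 : 0 < l := by linarith
  have hl1 : 1 / l ≤ d / 2 := by
    rw [div_le_div_iff₀ hl0 (by norm_num)]
    linarith
  have hint : IntegrableOn (fun u => g u * kf l (w - u)) (Ioi 0) := by
    refine Integrable.mono' (((integrable_kf hl w).const_mul G).integrableOn)
      ((hg.mul ((kf_measurable l).comp (measurable_const.sub measurable_id))).aestronglyMeasurable)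
      ?_
    filter_upwards [ae_restrict_mem measurableSet_Ioi] with u hu
    rw [norm_mul, Real.norm_eq_abs, Real.norm_of_nonneg (kf_nonneg hl0 _)]
    exact mul_le_mul_of_nonneg_right (hb u hu) (kf_nonneg hl0 _)
  obtain ⟨ht1, ht2⟩ := tail (K := 4 * G / l) (δ := d / 2) (by positivity) (by linarith) w
  set T : ℝ → ℝ := fun u => indicator {t : ℝ | d / 2 < |t|} (fun t => 4 * G / l / t ^ 2) (u - w) with hT
  have hTnn : ∀ u, 0 ≤ T u := fun u => indicator_nonneg (fun t _ => by positivity) _
  set S : ℝ → ℝ := indicator (Icc (w - 1 / l) (w + 1 / l)) (fun _ => m * l / 4) with hS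
  have hSint : Integrable S := by
    rw [hS, integrable_indicator_iff measurableSet_Icc]
    exact integrableOn_const (by simp)
  have hpt : ∀ᵐ u ∂(volume.restrict (Ioi (0 : ℝ))), S u - T u ≤ g u * kf l (w - u) := by
    have hne : ∀ᵐ u ∂(volume.restrict (Ioi (0 : ℝ))), u ≠ w := by
      apply ae_restrict_of_ae
      rw [ae_iff]
      simp
    filter_upwards [hne, ae_restrict_mem measurableSet_Ioi] with u hu hu0
    have hwu : w - u ≠ 0 := sub_ne_zero.2 (Ne.symm hu)
    have hsym : |w - u| = |u - w| := abs_sub_comm w u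
    have hkn := kf_nonneg hl0 (w - u)
    by_cases h1 : |u - w| ≤ 1 / l
    · have hS1 : S u = m * l / 4 := by
        rw [hS]
        apply indicator_of_mem
        rw [abs_le] at h1
        exact ⟨by linarith [h1.1], by linarith [h1.2]⟩
      have hT1 : T u = 0 := by
        rw [hT]
        apply indicator_of_notMem
        show ¬ (d / 2 < |u - w|)
        linarith
      rw [hS1, hT1, sub_zero]
      have h2 := le_kf hl0 hwu (by rw [hsym]; exact h1)
      have h3 := hlow u (by linarith)
      calc m * l / 4 = m * (l / 4) := by ring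
        _ ≤ m * kf l (w - u) := mul_le_mul_of_nonneg_left h2 hm
        _ ≤ g u * kf l (w - u) := mul_le_mul_of_nonneg_right h3 hkn
    · have hS1 : S u = 0 := by
        rw [hS]
        apply indicator_of_notMem
        intro h2
        apply h1
        rw [abs_le]
        exact ⟨by linarith [h2.1], by linarith [h2.2]⟩
      rw [hS1]
      by_cases h2 : |u - w| ≤ d / 2
      · have h3 := hlow u h2
        have h4 : 0 ≤ g u * kf l (w - u) := mul_nonneg (by linarith) hkn
        linarith [hTnn u]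
      · have h2 : d / 2 < |u - w| := by linarith
        have hT1 : T u = 4 * G / l / (u - w) ^ 2 := by
          rw [hT]
          exact indicator_of_mem (show u - w ∈ {t : ℝ | d / 2 < |t|} from h2) _
        rw [hT1]
        have h3 : -G ≤ g u := (abs_le.1 (hb u hu0)).1
        have h4 := kf_le_inv hl0 (w - u)
        have h5 : 4 * G / l / (u - w) ^ 2 = G * (4 / (l * (w - u) ^ 2)) := by
          have : (w - u) ^ 2 = (u - w) ^ 2 := by ring
          rw [this, div_div]
          ring
        rw [h5]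
        have h6 : G * kf l (w - u) ≤ G * (4 / (l * (w - u) ^ 2)) := mul_le_mul_of_nonneg_left h4 hG
        have h7 : -G * kf l (w - u) ≤ g u * kf l (w - u) := mul_le_mul_of_nonneg_right h3 hkn
        linarith
  have h1 : ∫ u in Ioi (0 : ℝ), (S u - T u) ≤ ∫ u in Ioi (0 : ℝ), g u * kf l (w - u) :=
    integral_mono_ae (hSint.integrableOn.sub ht1.integrableOn) hint hpt
  rw [integral_sub hSint.integrableOn ht1.integrableOn] at h1
  have h2 : ∫ u in Ioi (0 : ℝ), S u = m / 2 := by
    rw [hS, setIntegral_indicator measurableSet_Icc]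
    have h3 : Ioi (0 : ℝ) ∩ Icc (w - 1 / l) (w + 1 / l) = Icc (w - 1 / l) (w + 1 / l) := by
      rw [inter_eq_right]
      intro x hx
      rw [mem_Ioi]
      have := hx.1
      linarith
    have h4 : 0 < 1 / l := by positivity
    rw [h3, setIntegral_const, Real.volume_real_Icc_of_le (by linarith), smul_eq_mul]
    field_simp
    ring
  have h3 : ∫ u in Ioi (0 : ℝ), T u ≤ 16 * G / (l * d) := by
    have h4 : ∫ u in Ioi (0 : ℝ), T u ≤ ∫ u, T u :=
      setIntegral_le_integral ht1 (Filter.Eventually.of_forall hTnn)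
    refine h4.trans (le_of_eq ?_)
    rw [hT]
    rw [ht2]
    field_simp
    ring
  rw [h2] at h1
  linarith

/-- The function of `u = log x`. -/
noncomputable def gg (v u : ℝ) : ℝ :=
  (Chebyshev.psi (Real.exp u) * Real.exp (-u) - 1) * (u ^ 2 * Real.exp (-(u / v)))

theorem gg_measurable (v : ℝ) : Measurable (gg v) := by
  unfold gg
  have h1 : Measurable (fun u : ℝ => Chebyshev.psi (Real.exp u)) :=
    Chebyshev.psi_mono.measurable.comp Real.measurable_exp
  have h2 : Measurable (fun u : ℝ => Real.exp (-u)) := by fun_prop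
  have h3 : Measurable (fun u : ℝ => u ^ 2 * Real.exp (-(u / v))) := by fun_prop
  exact ((h1.mul h2).sub measurable_const).mul h3

theorem sq_le_exp {s : ℝ} (hs : 0 ≤ s) : s ^ 2 ≤ Real.exp s := by
  have h1 := Real.quadratic_le_exp_of_nonneg (x := s / 2) (by linarith)
  have h2 : s ≤ Real.exp (s / 2) := by
    nlinarith [sq_nonneg (s - 2)]
  have h3 : Real.exp s = Real.exp (s / 2) ^ 2 := by
    rw [← Real.exp_nat_mul]
    congr 1
    push_cast
    ring
  rw [h3]
  exact pow_le_pow_left₀ hs h2 2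

theorem weight_le {v u : ℝ} (hv : 0 < v) (hu : 0 < u) :
    u ^ 2 * Real.exp (-(u / v)) ≤ v ^ 2 := by
  have h1 := sq_le_exp (s := u / v) (by positivity)
  rw [Real.exp_neg, ← div_eq_mul_inv, div_le_iff₀ (Real.exp_pos _)]
  have h2 : u ^ 2 = v ^ 2 * (u / v) ^ 2 := by field_simp
  rw [h2]
  exact mul_le_mul_of_nonneg_left h1 (by positivity)

theorem psi_le_six {x : ℝ} (hx : 0 ≤ x) : Chebyshev.psi x ≤ 6 * x := by
  have h1 := Chebyshev.psi_le_const_mul_self hx
  have h2 : Real.log 4 ≤ 2 := by
    have := Real.log_two_lt_d9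
    have h : (4 : ℝ) = 2 ^ 2 := by norm_num
    rw [h, Real.log_pow]; push_cast; linarith
  nlinarith

theorem B_le (u : ℝ) : Chebyshev.psi (Real.exp u) * Real.exp (-u) ≤ 6 := by
  have h1 := psi_le_six (Real.exp_pos u).le
  calc _ ≤ 6 * Real.exp u * Real.exp (-u) :=
        mul_le_mul_of_nonneg_right h1 (Real.exp_pos _).le
    _ = 6 := by rw [mul_assoc, ← Real.exp_add]; simp

theorem B_nonneg (u : ℝ) : 0 ≤ Chebyshev.psi (Real.exp u) * Real.exp (-u) :=
  mul_nonneg (Chebyshev.psi_nonneg _) (Real.exp_pos _).le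

theorem gg_abs_le {v u : ℝ} (hv : 0 < v) (hu : 0 < u) : |gg v u| ≤ 5 * v ^ 2 := by
  unfold gg
  have h1 := B_le u
  have h2 := B_nonneg u
  have h3 := weight_le hv hu
  have h4 : 0 ≤ u ^ 2 * Real.exp (-(u / v)) := by positivity
  rw [abs_mul, abs_of_nonneg h4]
  have h5 : |Chebyshev.psi (Real.exp u) * Real.exp (-u) - 1| ≤ 5 := by
    rw [abs_le]; constructor <;> linarith
  exact mul_le_mul h5 h3 h4 (by norm_num)

/-- The change of variables. -/
theorem change (v l w : ℝ) :
    ∫ x in Ioi (1 : ℝ), (Chebyshev.psi x - x) * Real.log x ^ 2 * x ^ (-(2 + 1 / v) : ℝ) *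
      kf l (w - Real.log x) = ∫ u in Ioi (0 : ℝ), gg v u * kf l (w - u) := by
  have himg : Real.exp '' (Ioi (0 : ℝ)) = Ioi 1 := by
    ext x
    simp only [mem_image, mem_Ioi]
    constructor
    · rintro ⟨u, hu, rfl⟩
      exact Real.one_lt_exp_iff.2 hu
    · intro hx
      exact ⟨Real.log x, Real.log_pos hx, Real.exp_log (by linarith)⟩
  rw [← himg, integral_image_eq_integral_abs_deriv_smul measurableSet_Ioi
    (fun x _ => (Real.hasDerivAt_exp x).hasDerivWithinAt) Real.exp_injective.injOn]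
  apply setIntegral_congr_fun measurableSet_Ioi
  intro u hu
  simp only [smul_eq_mul]
  rw [abs_of_pos (Real.exp_pos u), Real.log_exp, ← Real.exp_mul]
  unfold gg
  have h1 : Real.exp (u * -(2 + 1 / v)) = Real.exp (-u) * Real.exp (-u) * Real.exp (-(u / v)) := by
    rw [← Real.exp_add, ← Real.exp_add]
    congr 1
    ring
  have h2 : Real.exp u * Real.exp (-u) = 1 := by rw [← Real.exp_add]; simp
  rw [h1]
  calc _ = (Chebyshev.psi (Real.exp u) * (Real.exp u * Real.exp (-u)) * Real.exp (-u) -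
        (Real.exp u * Real.exp (-u)) * (Real.exp u * Real.exp (-u))) *
        (u ^ 2 * Real.exp (-(u / v))) * kf l (w - u) := by ring
    _ = _ := by rw [h2]; ring

/-- Lower bound for the weight. -/
theorem le_weight {v u : ℝ} (hv : 0 < v) (h1 : v / 2 ≤ u) (h2 : u ≤ 2 * v) :
    v ^ 2 / 32 ≤ u ^ 2 * Real.exp (-(u / v)) := by
  have h3 : u / v ≤ 2 := by rw [div_le_iff₀ hv]; linarith
  have h4 : Real.exp (-2 : ℝ) ≤ Real.exp (-(u / v)) := Real.exp_le_exp.2 (by linarith)
  have h5 : (1 : ℝ) / 8 ≤ Real.exp (-2 : ℝ) := by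
    rw [Real.exp_neg, one_div]
    apply inv_anti₀ (Real.exp_pos _)
    have h6 : Real.exp 2 = Real.exp 1 ^ 2 := by
      rw [← Real.exp_nat_mul]; norm_num
    rw [h6]
    have := Real.exp_one_lt_d9
    have h7 := Real.exp_pos 1
    nlinarith
  have h6 : (v / 2) ^ 2 ≤ u ^ 2 := pow_le_pow_left₀ (by linarith) h1 2
  calc v ^ 2 / 32 = (v / 2) ^ 2 * (1 / 8) := by ring
    _ ≤ u ^ 2 * Real.exp (-(u / v)) :=
      mul_le_mul h6 (h5.trans h4) (by norm_num) (by positivity)

/-- The two cases of the final contradiction. -/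
theorem final {C A v a : ℝ} (hC : 0 < C) (hA : 0 < A) (hv1 : 1 ≤ v) (_hvA : A ≤ v)
    (hvA2 : 32 / A ≤ v) (hvq : (128 * (C + 1280 / A) / A + 1) ^ 4 ≤ v) (ha : A / v < a)
    {g : ℝ → ℝ} (hg : Measurable g) {w : ℝ} (hb : ∀ u, 0 < u → |g u| ≤ 5 * v ^ 2)
    (hw : A / (16 * v) / 2 < w)
    (hlow : ∀ u, |u - w| ≤ A / (16 * v) / 2 → a / 2 * (v ^ 2 / 32) * 2 ≤ 2 * g u)
    (hF : ∫ u in Ioi (0 : ℝ), g u * kf (v ^ 3) (w - u) ≤ C * (v ^ 3) ^ (1 / 4 : ℝ)) : False := by
  have hv0 : 0 < v := by linarith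
  have ha0 : 0 < a := lt_trans (by positivity) ha
  have hl1 : 1 ≤ v ^ 3 := one_le_pow₀ hv1
  have hld : v ^ 3 * (A / (16 * v)) = A * v ^ 2 / 16 := by field_simp
  have hv2 : 32 / A ≤ v ^ 2 := hvA2.trans (by nlinarith)
  have h32 : 2 ≤ A * v ^ 2 / 16 := by
    rw [div_le_iff₀ hA] at hv2
    linarith
  have h1 := core hg (G := 5 * v ^ 2) (m := a / 2 * (v ^ 2 / 32)) (l := v ^ 3)
    (d := A / (16 * v)) (w := w) (by positivity) (by positivity) hl1 (by positivity)
    (by rw [hld]; exact h32) hw hb (fun u hu => by linarith [hlow u hu])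
  rw [hld] at h1
  have h2 : 16 * (5 * v ^ 2) / (A * v ^ 2 / 16) = 1280 / A := by field_simp; norm_num
  rw [h2] at h1
  -- the fourth root of `v`
  set q : ℝ := v ^ (1 / 4 : ℝ) with hq
  have hq0 : 0 ≤ q := by positivity
  have hq4 : q ^ 4 = v := by
    rw [hq, ← Real.rpow_natCast, ← Real.rpow_mul hv0.le]
    norm_num
  have hq3 : (v ^ 3) ^ (1 / 4 : ℝ) = q ^ 3 := by
    rw [hq, ← Real.rpow_natCast, ← Real.rpow_natCast, ← Real.rpow_mul hv0.le,
      ← Real.rpow_mul hv0.le]
    norm_num
  have hqb : 128 * (C + 1280 / A) / A + 1 ≤ q := by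
    rw [← hq4] at hvq
    exact le_of_pow_le_pow_left₀ (by norm_num) hq0 hvq
  have hD : 0 < 1280 / A := by positivity
  have hq1 : 1 ≤ q := by
    have : 0 < 128 * (C + 1280 / A) / A := by positivity
    linarith
  have h3 : 128 * (C + 1280 / A) + A ≤ q * A := by
    have h4 : (128 * (C + 1280 / A) / A + 1) * A ≤ q * A := mul_le_mul_of_nonneg_right hqb hA.le
    have h5 : (128 * (C + 1280 / A) / A + 1) * A = 128 * (C + 1280 / A) + A := by field_simp
    linarith
  have h4 : A * v ≤ a * v ^ 2 := by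
    have h5 : A / v * v ^ 2 ≤ a * v ^ 2 := mul_le_mul_of_nonneg_right ha.le (by positivity)
    have h6 : A / v * v ^ 2 = A * v := by field_simp
    linarith
  have h5 : a / 2 * (v ^ 2 / 32) / 2 = a * v ^ 2 / 128 := by ring
  rw [hq3] at hF
  rw [h5] at h1
  have hq31 : 1 ≤ q ^ 3 := one_le_pow₀ hq1
  have h6 : q ^ 3 * (128 * (C + 1280 / A) + A) ≤ q ^ 3 * (q * A) :=
    mul_le_mul_of_nonneg_left h3 (by positivity)
  have h7 : q ^ 3 * (q * A) = A * v := by rw [← hq4]; ring
  have h8 : 1280 / A ≤ q ^ 3 * (1280 / A) := le_mul_of_one_le_left hD.le hq31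
  have h9 : 0 < q ^ 3 * A := by positivity
  nlinarith

theorem gg_low {v u c : ℝ} (hv : 0 < v) (hc : 0 ≤ c) (h1 : v / 2 ≤ u) (h2 : u ≤ 2 * v)
    (h3 : 1 + c ≤ Chebyshev.psi (Real.exp u) * Real.exp (-u)) :
    c * (v ^ 2 / 32) ≤ gg v u := by
  unfold gg
  have h4 := le_weight hv h1 h2
  exact mul_le_mul (by linarith) h4 (by positivity) (by linarith)

theorem gg_up {v u c : ℝ} (hv : 0 < v) (hc : 0 ≤ c) (h1 : v / 2 ≤ u) (h2 : u ≤ 2 * v)
    (h3 : Chebyshev.psi (Real.exp u) * Real.exp (-u) ≤ 1 - c) :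
    c * (v ^ 2 / 32) ≤ -gg v u := by
  unfold gg
  have h4 := le_weight hv h1 h2
  rw [← neg_mul]
  exact mul_le_mul (by linarith) h4 (by positivity) (by linarith)

end Tauber

open Tauber in
theorem tauber (F : FejerSt) : PsiSt := by
  intro A hA
  obtain ⟨C, hC, hF⟩ := F
  set v₀ : ℝ := 1 + A + 32 / A + (128 * (C + 1280 / A) / A + 1) ^ 4 with hv₀
  refine ⟨Real.exp v₀, fun x hx => ?_⟩
  have hx0 : 0 < x := lt_of_lt_of_le (Real.exp_pos _) hx
  set v := Real.log x with hv
  have hxv : Real.exp v = x := Real.exp_log hx0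
  have hvv : v₀ ≤ v := by
    rw [hv, Real.le_log_iff_exp_le hx0]; exact hx
  have hp1 : 0 < 32 / A := by positivity
  have hp2 : 0 < (128 * (C + 1280 / A) / A + 1) ^ 4 := by positivity
  have hv1 : 1 ≤ v := by linarith
  have hvA : A ≤ v := by linarith
  have hvA2 : 32 / A ≤ v := by linarith
  have hvq : (128 * (C + 1280 / A) / A + 1) ^ 4 ≤ v := by linarith
  have hv0 : 0 < v := by linarith
  set d : ℝ := A / (16 * v) with hd
  have hd0 : 0 < d := by positivity
  have hd1 : d ≤ 1 / 16 := by
    rw [hd, div_le_div_iff₀ (by positivity) (by norm_num)]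
    linarith
  have hdA : d = A / v / 16 := by rw [hd]; field_simp
  have hF' : ∀ w, |∫ u in Ioi (0 : ℝ), gg v u * kf (v ^ 3) (w - u)| ≤ C * (v ^ 3) ^ (1 / 4 : ℝ) := by
    intro w
    rw [← change]
    exact hF v (v ^ 3) w hv1 (one_le_pow₀ hv1)
  set a : ℝ := Chebyshev.psi x / x - 1 with ha
  have hax : Chebyshev.psi x = (1 + a) * Real.exp v := by
    rw [hxv, ha]; field_simp; ring
  have ha6 : 1 + a ≤ 6 := by
    have := psi_le_six hx0.le
    rw [ha]
    have h1 : Chebyshev.psi x / x ≤ 6 := by rw [div_le_iff₀ hx0]; exact this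
    linarith
  have ha1 : 0 ≤ 1 + a := by
    rw [ha]
    have : 0 ≤ Chebyshev.psi x / x := div_nonneg (Chebyshev.psi_nonneg _) hx0.le
    linarith
  have hgoal : |a| ≤ A / v → |Chebyshev.psi x - x| ≤ A * x / v := by
    intro h
    have h1 : Chebyshev.psi x - x = a * x := by rw [ha]; field_simp
    rw [h1, abs_mul, abs_of_pos hx0]
    calc |a| * x ≤ A / v * x := mul_le_mul_of_nonneg_right h hx0.le
      _ = A * x / v := by ring
  apply hgoal
  rw [abs_le]
  by_contra hcon
  rw [not_and_or, not_le, not_le] at hcon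
  rcases hcon with hcon | hcon
  · -- lower bound
    have hb : A / v < -a := by linarith
    have hw : d / 2 < v - d / 2 := by linarith
    refine final hC hA hv1 hvA hvA2 hvq hb (g := fun u => -gg v u) (gg_measurable v).neg
      (w := v - d / 2) (fun u hu => by rw [abs_neg]; exact gg_abs_le hv0 hu) hw ?_ ?_
    · intro u hu
      rw [abs_le] at hu
      have hu1 : v - d ≤ u := by linarith [hu.1]
      have hu2 : u ≤ v := by linarith [hu.2]
      have h1 : Chebyshev.psi (Real.exp u) ≤ (1 + a) * Real.exp v := by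
        rw [← hax]
        apply Chebyshev.psi_mono
        rw [← hxv]
        exact Real.exp_le_exp.2 hu2
      have h2 : Chebyshev.psi (Real.exp u) * Real.exp (-u) ≤ 1 - (-a / 2) := by
        have h3 : Chebyshev.psi (Real.exp u) * Real.exp (-u) ≤
            (1 + a) * Real.exp v * Real.exp (-u) :=
          mul_le_mul_of_nonneg_right h1 (Real.exp_pos _).le
        refine h3.trans ?_
        have h4 : 1 - d ≤ Real.exp (u - v) := by
          have := Real.add_one_le_exp (u - v)
          linarith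
        have h5 : (1 + a) ≤ (1 - -a / 2) * Real.exp (u - v) := by
          have h6 : (1 - -a / 2) * (1 - d) ≤ (1 - -a / 2) * Real.exp (u - v) :=
            mul_le_mul_of_nonneg_left h4 (by linarith)
          have h7 : (1 + a) ≤ (1 - -a / 2) * (1 - d) := by
            have h8 : 0 ≤ -a / 2 * d := by
              have : 0 < -a := lt_trans (by positivity) hb
              positivity
            nlinarith
          linarith
        calc (1 + a) * Real.exp v * Real.exp (-u) ≤
            ((1 - -a / 2) * Real.exp (u - v)) * Real.exp v * Real.exp (-u) := by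
              apply mul_le_mul_of_nonneg_right _ (Real.exp_pos _).le
              exact mul_le_mul_of_nonneg_right h5 (Real.exp_pos _).le
          _ = (1 - -a / 2) * Real.exp (u - v + v + -u) := by
              rw [Real.exp_add, Real.exp_add]; ring
          _ = 1 - -a / 2 := by
              have : u - v + v + -u = 0 := by ring
              rw [this, Real.exp_zero, mul_one]
      have h3 := gg_up (c := -a / 2) hv0 (by
        have : 0 < -a := lt_trans (by positivity) hb
        linarith) (by linarith) (by linarith) h2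
      linarith
    · have h1 := (abs_le.1 (hF' (v - d / 2))).1
      have h2 : ∫ u in Ioi (0 : ℝ), -gg v u * kf (v ^ 3) (v - d / 2 - u) =
          -∫ u in Ioi (0 : ℝ), gg v u * kf (v ^ 3) (v - d / 2 - u) := by
        rw [← integral_neg]
        congr 1
        ext u
        ring
      rw [h2]
      linarith
  · -- upper bound
    have hw : d / 2 < v + d / 2 := by linarith
    refine final hC hA hv1 hvA hvA2 hvq hcon (g := gg v) (gg_measurable v)
      (w := v + d / 2) (fun u hu => gg_abs_le hv0 hu) hw ?_ ?_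
    · intro u hu
      rw [abs_le] at hu
      have hu1 : v ≤ u := by linarith [hu.1]
      have hu2 : u ≤ v + d := by linarith [hu.2]
      have h1 : (1 + a) * Real.exp v ≤ Chebyshev.psi (Real.exp u) := by
        rw [← hax]
        apply Chebyshev.psi_mono
        rw [← hxv]
        exact Real.exp_le_exp.2 hu1
      have h2 : 1 + a / 2 ≤ Chebyshev.psi (Real.exp u) * Real.exp (-u) := by
        have h3 : (1 + a) * Real.exp v * Real.exp (-u) ≤
            Chebyshev.psi (Real.exp u) * Real.exp (-u) :=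
          mul_le_mul_of_nonneg_right h1 (Real.exp_pos _).le
        refine le_trans ?_ h3
        have h4 : 1 - d ≤ Real.exp (v - u) := by
          have := Real.add_one_le_exp (v - u)
          linarith
        have h5 : (1 + a) * Real.exp v * Real.exp (-u) = (1 + a) * Real.exp (v - u) := by
          rw [mul_assoc, ← Real.exp_add]; rfl
        rw [h5]
        have h6 : (1 + a) * (1 - d) ≤ (1 + a) * Real.exp (v - u) :=
          mul_le_mul_of_nonneg_left h4 ha1
        have h7 : (1 + a) * d ≤ 6 * d := mul_le_mul_of_nonneg_right ha6 hd0.le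
        linarith
      have h3 := gg_low (c := a / 2) hv0 (by
        have : 0 < a := lt_trans (by positivity) hcon
        linarith) (by linarith) (by linarith) h2
      linarith
    · exact (abs_le.1 (hF' (v + d / 2))).2

end Pool.Agent.H61.PNT
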