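import Pool.Agent.H61.PNT.Defs

/-!
# A lower bound for `ζ` to the right of the line `Re s = 1`
-/

set_option autoImplicit false

namespace Pool.Agent.H61.PNT.ZLow

open Complex MeasureTheory Set
open Pool.Agent.H61.PNT

/-- `ζ(1+x) = O(1/x)`. -/
theorem zeta_near : ∃ K : ℝ, 1 ≤ K ∧ ∀ x : ℝ, 0 < x → x ≤ 1 → ‖riemannZeta (1 + x)‖ ≤ K / x := by
  have hc : Continuous fun x : ℝ => riemannZeta₁ (1 + x) :=
    differentiable_riemannZeta₁.continuous.comp (by fun_prop)
  obtain ⟨K, hK⟩ := (isCompact_Icc (a := (0 : ℝ)) (b := 1)).exists_bound_of_continuousOn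
    hc.continuousOn
  refine ⟨max K 1, le_max_right _ _, fun x hx hx1 => ?_⟩
  have hne : (1 + x : ℂ) ≠ 1 := by
    intro h
    have : (x : ℂ) = 0 := by linear_combination h
    exact hx.ne' (by exact_mod_cast this)
  rw [riemannZeta_eq_inv_sub_mul hne, norm_mul, norm_inv]
  have h1 : (1 + x : ℂ) - 1 = (x : ℂ) := by ring
  rw [h1, Complex.norm_real, Real.norm_of_nonneg hx.le, div_eq_inv_mul]
  exact mul_le_mul_of_nonneg_left ((hK x ⟨hx.le, hx1⟩).trans (le_max_left _ _)) (by positivity)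

/-- The inequality from `3 + 4 cos + cos 2`. -/
theorem three_four_one {x : ℝ} (hx : 0 < x) (y : ℝ) :
    1 ≤ ‖riemannZeta (1 + x)‖ ^ 3 * ‖riemannZeta (1 + x + I * y)‖ ^ 4 *
      ‖riemannZeta (1 + x + 2 * I * y)‖ := by
  have h := DirichletCharacter.norm_LFunction_product_ge_one (N := 1) 1 hx y
  simp only [DirichletCharacter.LFunctionTrivChar, DirichletCharacter.LFunction_modOne_eq,
    norm_mul, norm_pow] at h
  exact h

theorem zLow' (B : ZBoundSt) : ZLowSt := by
  obtain ⟨C, hC, hB⟩ := B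
  obtain ⟨K, hK1, hK⟩ := zeta_near
  -- the fourth power bound
  have four : ∀ x t : ℝ, 0 < x → x ≤ 1 → 2 ≤ |t| →
      x ^ 3 ≤ 2 * C * K ^ 3 * Real.log |t| *
        ‖riemannZeta (((1 + x : ℝ) : ℂ) + (t : ℂ) * I)‖ ^ 4 := by
    intro x t hx hx1 ht
    have h1 := three_four_one hx t
    have h2 : ‖riemannZeta (1 + x + 2 * I * t)‖ ≤ 2 * C * Real.log |t| := by
      have h3 := hB 0 (by norm_num) (1 + x) (2 * t) (by linarith) (by linarith)
        (by rw [abs_mul]; norm_num; linarith [abs_nonneg t])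
      rw [iteratedDeriv_zero] at h3
      have h4 : ((1 + x : ℝ) : ℂ) + ((2 * t : ℝ) : ℂ) * I = 1 + x + 2 * I * t := by
        push_cast; ring
      rw [h4] at h3
      refine h3.trans ?_
      have h5 : Real.log |2 * t| ≤ 2 * Real.log |t| := by
        have ht0 : |t| ≠ 0 := by
          intro h; rw [h] at ht; norm_num at ht
        rw [abs_mul, Real.log_mul (by norm_num) ht0]
        have : Real.log |(2 : ℝ)| ≤ Real.log |t| := by
          apply Real.log_le_log
          · norm_num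
          · norm_num; exact ht
        linarith
      have h6 : Real.log |2 * t| ^ (0 + 1) = Real.log |2 * t| := by ring
      rw [h6]
      nlinarith
    have h3 : ‖riemannZeta (1 + x)‖ ^ 3 ≤ (K / x) ^ 3 :=
      pow_le_pow_left₀ (norm_nonneg _) (hK x hx hx1) 3
    have h4 : (1 + x + I * t : ℂ) = ((1 + x : ℝ) : ℂ) + (t : ℂ) * I := by push_cast; ring
    rw [h4] at h1
    set z := ‖riemannZeta (((1 + x : ℝ) : ℂ) + (t : ℂ) * I)‖
    have hz : 0 ≤ z ^ 4 := by positivity
    have h5 : 1 ≤ (K / x) ^ 3 * z ^ 4 * (2 * C * Real.log |t|) := by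
      refine h1.trans ?_
      apply mul_le_mul _ h2 (norm_nonneg _) (by positivity)
      exact mul_le_mul_of_nonneg_right h3 hz
    have hx3 : 0 < x ^ 3 := by positivity
    have h6 : (K / x) ^ 3 * z ^ 4 * (2 * C * Real.log |t|) =
        (2 * C * K ^ 3 * Real.log |t| * z ^ 4) / x ^ 3 := by
      field_simp
    rw [h6, le_div_iff₀ hx3, one_mul] at h5
    exact h5
  -- the constants
  set M : ℝ := 2 * C * K ^ 3 with hM
  have hM0 : 0 < M := by positivity
  set D : ℝ := max 1 M with hD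
  have hD1 : 1 ≤ D := le_max_left _ _
  have hDM : M ≤ D := le_max_right _ _
  have hD0 : 0 < D := by linarith
  have hD4 : M ≤ D ^ 4 := hDM.trans (le_self_pow₀ hD1 (by norm_num))
  set c : ℝ := min (1 / 4) (1 / (2 * C * D)) with hc
  have hc0 : 0 < c := lt_min (by norm_num) (by positivity)
  have hc4 : c ≤ 1 / 4 := min_le_left _ _
  have hcC : c * (2 * C * D) ≤ 1 := by
    have : c ≤ 1 / (2 * C * D) := min_le_right _ _
    rwa [le_div_iff₀ (by positivity)] at this
  refine ⟨c ^ 3 / (2 * D), by positivity, fun σ t hσ1 hσ2 ht => ?_⟩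
  set L : ℝ := Real.log |t| with hL
  have hL0 : (0.69 : ℝ) ≤ L := by
    have h1 : Real.log 2 ≤ Real.log |t| := Real.log_le_log (by norm_num) ht
    have := Real.log_two_gt_d9
    linarith
  have hLpos : 0 < L := by linarith
  set e : ℝ := c ^ 4 / L ^ 9 with he
  have he0 : 0 < e := by positivity
  have he1 : e ≤ 1 := by
    rw [he, div_le_one (by positivity)]
    calc c ^ 4 ≤ (1 / 4 : ℝ) ^ 4 := pow_le_pow_left₀ hc0.le hc4 4
      _ ≤ (0.69 : ℝ) ^ 9 := by norm_num
      _ ≤ L ^ 9 := pow_le_pow_left₀ (by norm_num) hL0 9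
  have claimA : ∀ x : ℝ, e ≤ x → x ≤ 1 →
      c ^ 3 / D ≤ ‖riemannZeta (((1 + x : ℝ) : ℂ) + (t : ℂ) * I)‖ * L ^ 7 := by
    intro x hx hx1
    have h1 := four x t (by linarith) hx1 ht
    rw [← hL] at h1
    set z := ‖riemannZeta (((1 + x : ℝ) : ℂ) + (t : ℂ) * I)‖ with hz
    have hz0 : 0 ≤ z := norm_nonneg _
    have h2 : e ^ 3 ≤ D ^ 4 * L * z ^ 4 := by
      calc e ^ 3 ≤ x ^ 3 := pow_le_pow_left₀ he0.le hx 3
        _ ≤ M * L * z ^ 4 := h1
        _ ≤ D ^ 4 * L * z ^ 4 := by gcongr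
    have h3 : c ^ 12 ≤ (D * (z * L ^ 7)) ^ 4 := by
      have h4 : e ^ 3 = c ^ 12 / L ^ 27 := by
        rw [he, div_pow]; ring
      rw [h4, div_le_iff₀ (by positivity)] at h2
      calc c ^ 12 ≤ D ^ 4 * L * z ^ 4 * L ^ 27 := h2
        _ = (D * (z * L ^ 7)) ^ 4 := by ring
    have h4 : c ^ 3 ≤ D * (z * L ^ 7) := by
      have h5 : (c ^ 3) ^ 4 ≤ (D * (z * L ^ 7)) ^ 4 := by
        calc (c ^ 3) ^ 4 = c ^ 12 := by ring
          _ ≤ _ := h3
      exact (pow_le_pow_iff_left₀ (by positivity) (by positivity) (by norm_num)).mp h5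
    rw [div_le_iff₀ hD0]
    linarith
  have hfin : c ^ 3 / (2 * D) = c ^ 3 / D / 2 := by field_simp
  have hcD : 0 < c ^ 3 / D := by positivity
  rcases le_or_gt e (σ - 1) with hx | hx
  · have h1 := claimA (σ - 1) hx (by linarith)
    have h2 : (1 + (σ - 1) : ℝ) = σ := by ring
    rw [h2] at h1
    linarith
  · -- compare with `1 + e`
    have h1 := claimA e le_rfl he1
    set S : Set ℂ := {z : ℂ | 1 < z.re ∧ z.re ≤ 2 ∧ z.im = t} with hS
    have hconv : Convex ℝ S := by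
      have h3 : Convex ℝ {z : ℂ | 1 < z.re} := convex_halfSpace_re_gt 1
      have h4 : Convex ℝ {z : ℂ | z.re ≤ 2} := convex_halfSpace_re_le 2
      have h5 : Convex ℝ {z : ℂ | z.im ≤ t} := convex_halfSpace_im_le t
      have h6 : Convex ℝ {z : ℂ | t ≤ z.im} := convex_halfSpace_im_ge t
      have h7 : S = {z : ℂ | 1 < z.re} ∩ ({z : ℂ | z.re ≤ 2} ∩ ({z : ℂ | z.im ≤ t} ∩
          {z : ℂ | t ≤ z.im})) := by
        ext z
        simp only [hS, mem_ofPred_eq, mem_inter_iff]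
        constructor
        · rintro ⟨a, b, c⟩
          exact ⟨a, b, c.le, c.ge⟩
        · rintro ⟨a, b, c, d⟩
          exact ⟨a, b, le_antisymm c d⟩
      rw [h7]
      exact h3.inter (h4.inter (h5.inter h6))
    have hdiff : ∀ z ∈ S, DifferentiableAt ℂ riemannZeta z := by
      intro z hz
      apply differentiableAt_riemannZeta
      intro h
      have := hz.1
      rw [h] at this
      simp at this
    have hbd : ∀ z ∈ S, ‖deriv riemannZeta z‖ ≤ C * L ^ 2 := by
      intro z hz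
      have h3 := hB 1 (by norm_num) z.re z.im hz.1 hz.2.1 (by rw [hz.2.2]; exact ht)
      rw [iteratedDeriv_one, Complex.re_add_im, hz.2.2] at h3
      exact h3
    have hmem : ∀ u : ℝ, 1 < u → u ≤ 2 → ((u : ℝ) : ℂ) + (t : ℂ) * I ∈ S := by
      intro u hu hu2
      simp only [hS, mem_ofPred_eq]
      simp [hu, hu2]
    have hmv := hconv.norm_image_sub_le_of_norm_deriv_le hdiff hbd
      (hmem σ hσ1 hσ2) (hmem (1 + e) (by linarith) (by linarith))
    have hdist : ‖(((1 + e : ℝ) : ℂ) + (t : ℂ) * I) - ((σ : ℂ) + (t : ℂ) * I)‖ ≤ e := by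
      have h3 : (((1 + e : ℝ) : ℂ) + (t : ℂ) * I) - ((σ : ℂ) + (t : ℂ) * I) =
          ((1 + e - σ : ℝ) : ℂ) := by push_cast; ring
      rw [h3, Complex.norm_real, Real.norm_eq_abs, abs_le]
      constructor <;> linarith
    set z1 := ‖riemannZeta (((1 + e : ℝ) : ℂ) + (t : ℂ) * I)‖ with hz1
    set z2 := ‖riemannZeta ((σ : ℂ) + (t : ℂ) * I)‖ with hz2
    have h3 : z1 - z2 ≤ C * L ^ 2 * e := by
      have h4 := norm_sub_norm_le (riemannZeta (((1 + e : ℝ) : ℂ) + (t : ℂ) * I))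
        (riemannZeta ((σ : ℂ) + (t : ℂ) * I))
      have h5 : C * L ^ 2 * ‖(((1 + e : ℝ) : ℂ) + (t : ℂ) * I) - ((σ : ℂ) + (t : ℂ) * I)‖ ≤
          C * L ^ 2 * e := mul_le_mul_of_nonneg_left hdist (by positivity)
      linarith
    have h4 : (z1 - z2) * L ^ 7 ≤ c ^ 3 / D / 2 := by
      calc (z1 - z2) * L ^ 7 ≤ C * L ^ 2 * e * L ^ 7 :=
            mul_le_mul_of_nonneg_right h3 (by positivity)
        _ = C * c ^ 4 := by rw [he]; field_simp
        _ ≤ c ^ 3 / D / 2 := by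
            rw [div_div, le_div_iff₀ (by positivity)]
            calc C * c ^ 4 * (D * 2) = c ^ 3 * (c * (2 * C * D)) := by ring
              _ ≤ c ^ 3 * 1 := mul_le_mul_of_nonneg_left hcC (by positivity)
              _ = c ^ 3 := mul_one _
    have h5 : (z1 - z2) * L ^ 7 = z1 * L ^ 7 - z2 * L ^ 7 := by ring
    linarith

end Pool.Agent.H61.PNT.ZLow

namespace Pool.Agent.H61.PNT

theorem zLow (B : ZBoundSt) : ZLowSt := ZLow.zLow' B

end Pool.Agent.H61.PNT
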