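import Pool.Agent.H61.PNT.ZBound
import Pool.Agent.H61.PNT.ZLow
import Pool.Agent.H61.PNT.DBnd
import Pool.Agent.H61.PNT.Laplace
import Pool.Agent.H61.PNT.Fejer
import Pool.Agent.H61.PNT.Tauber
import Pool.Agent.H61.PNT.Conv

/-!
# Prime number theorem with error term: assembly
-/

set_option autoImplicit false

namespace Pool.Agent.H61.PNT

theorem psiSt : PsiSt := tauber (fejer (dBound zBound (zLow zBound)) laplace)

theorem pnt : PNTSt := conv psiSt

end Pool.Agent.H61.PNT
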