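import Pool.Agent.H61.PNT.Defs

/-!
# The second derivative of `Phi`
-/

namespace Pool.Agent.H61.PNT

open Complex MeasureTheory Set

namespace DB

/-- derivatives of zeta -/
noncomputable abbrev Z (j : ℕ) : ℂ → ℂ := iteratedDeriv j riemannZeta

lemma hasDerivAt_Z (j : ℕ) {s : ℂ} (hs : 1 < s.re) : HasDerivAt (Z j) (Z (j + 1) s) s := by
  have h1 : AnalyticAt ℂ riemannZeta s := by
    have h2 : DifferentiableOn ℂ riemannZeta {z : ℂ | 1 < z.re} := by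
      intro z hz
      apply (differentiableAt_riemannZeta ?_).differentiableWithinAt
      rintro rfl
      simp at hz
    exact h2.analyticAt ((isOpen_lt continuous_const continuous_re).mem_nhds hs)
  have h3 : AnalyticAt ℂ (Z j) s := by
    have := h1.iterated_deriv j
    rwa [← iteratedDeriv_eq_iterate] at this
  have h4 := h3.differentiableAt.hasDerivAt
  have h5 : Z (j + 1) s = deriv (Z j) s := by
    change iteratedDeriv (j + 1) riemannZeta s = _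
    rw [iteratedDeriv_succ]
  rw [h5]
  exact h4

lemma Z_zero : Z 0 = riemannZeta := iteratedDeriv_zero
lemma Z_one : Z 1 = deriv riemannZeta := iteratedDeriv_one

/-- the first derivative of `Phi` -/
noncomputable def Phi1 (s : ℂ) : ℂ :=
  -(Z 2 s / (s * Z 0 s)) + Z 1 s / (s ^ 2 * Z 0 s) + Z 1 s ^ 2 / (s * Z 0 s ^ 2) +
    1 / (s - 1) ^ 2

/-- the second derivative of `Phi` -/
noncomputable def Phi2 (s : ℂ) : ℂ :=
  -(Z 3 s / (s * Z 0 s)) + 2 * (Z 2 s / (s ^ 2 * Z 0 s)) + 3 * (Z 1 s * Z 2 s / (s * Z 0 s ^ 2))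
    - 2 * (Z 1 s / (s ^ 3 * Z 0 s)) - 2 * (Z 1 s ^ 2 / (s ^ 2 * Z 0 s ^ 2))
    - 2 * (Z 1 s ^ 3 / (s * Z 0 s ^ 3)) - 2 * (1 / (s - 1) ^ 3)

lemma ne0 {s : ℂ} (hs : 1 < s.re) : s ≠ 0 := by
  rintro rfl
  simp at hs
  linarith

lemma ne1 {s : ℂ} (hs : 1 < s.re) : s - 1 ≠ 0 := by
  intro h
  rw [sub_eq_zero] at h
  rw [h] at hs
  simp at hs

lemma neZ {s : ℂ} (hs : 1 < s.re) : Z 0 s ≠ 0 := by
  rw [Z_zero]
  exact riemannZeta_ne_zero_of_one_le_re hs.le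

lemma hasDerivAt_Phi {s : ℂ} (hs : 1 < s.re) : HasDerivAt Phi (Phi1 s) s := by
  have a0 := ne0 hs
  have a1 := ne1 hs
  have aZ := neZ hs
  have d0 := hasDerivAt_Z 0 hs
  have d1 := hasDerivAt_Z 1 hs
  have e0 := hasDerivAt_id s
  have h1 := ((d1.neg).fun_div (e0.fun_mul d0) (mul_ne_zero a0 aZ)).fun_sub
    ((hasDerivAt_const s (1 : ℂ)).fun_div (e0.sub_const 1) a1)
  have h2 : Phi = fun s => (-Z 1 s / (s * Z 0 s)) - 1 / (s - 1) := by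
    funext z
    rw [Z_one, Z_zero]
    rfl
  rw [h2]
  refine h1.congr_deriv ?_
  simp only [id, Phi1, Pi.neg_apply]
  field_simp
  ring

lemma hasDerivAt_Phi1 {s : ℂ} (hs : 1 < s.re) : HasDerivAt Phi1 (Phi2 s) s := by
  have a0 := ne0 hs
  have a1 := ne1 hs
  have aZ := neZ hs
  have d0 := hasDerivAt_Z 0 hs
  have d1 := hasDerivAt_Z 1 hs
  have d2 := hasDerivAt_Z 2 hs
  have e0 := hasDerivAt_id s
  have h1 := (((((d2.fun_div (e0.fun_mul d0) (mul_ne_zero a0 aZ))).fun_neg).fun_add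
    (d1.fun_div ((e0.fun_pow 2).fun_mul d0) (mul_ne_zero (pow_ne_zero 2 a0) aZ))).fun_add
    ((d1.fun_pow 2).fun_div (e0.fun_mul (d0.fun_pow 2)) (mul_ne_zero a0 (pow_ne_zero 2 aZ)))).fun_add
    ((hasDerivAt_const s (1 : ℂ)).fun_div ((e0.sub_const 1).fun_pow 2) (pow_ne_zero 2 a1))
  refine h1.congr_deriv ?_
  simp only [id, Phi2]
  field_simp
  ring

lemma iter_Phi {s : ℂ} (hs : 1 < s.re) : iteratedDeriv 2 Phi s = Phi2 s := by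
  rw [iteratedDeriv_succ, iteratedDeriv_one]
  have h1 : deriv Phi =ᶠ[nhds s] Phi1 := by
    filter_upwards [(isOpen_lt continuous_const continuous_re).mem_nhds hs] with z hz
    exact (hasDerivAt_Phi hz).deriv
  rw [h1.deriv_eq]
  exact (hasDerivAt_Phi1 hs).deriv

lemma bd {a1 a2 a3 r r1 : ℂ} {y T : ℝ} (hy : 1 ≤ y) (hT0 : 0 ≤ T) (hT1 : T ≤ 1)
    (h1 : ‖a1‖ ≤ y) (h2 : ‖a2‖ ≤ y ^ 2) (h3 : ‖a3‖ ≤ y ^ 3) (hr : ‖r‖ ≤ T) (hr1 : ‖r1‖ ≤ T) :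
    ‖-(a3 * r) + 2 * (a2 * r ^ 2) + 3 * (a1 * a2 * r) - 2 * (a1 * r ^ 3) - 2 * (a1 ^ 2 * r ^ 2)
      - 2 * (a1 ^ 3 * r) - 2 * r1 ^ 3‖ ≤ 14 * (y ^ 3 * T) := by
  have y0 : 0 ≤ y := by linarith
  have p2 : T ^ 2 ≤ T := by nlinarith
  have p3 : T ^ 3 ≤ T := by nlinarith [mul_nonneg hT0 hT0]
  have y2 : y ^ 2 ≤ y ^ 3 := pow_le_pow_right₀ hy (by norm_num)
  have y1 : y ≤ y ^ 3 := by
    calc y = y ^ 1 := (pow_one y).symm
      _ ≤ y ^ 3 := pow_le_pow_right₀ hy (by norm_num)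
  have y3 : 1 ≤ y ^ 3 := one_le_pow₀ hy
  have k1 : ‖a3 * r‖ ≤ y ^ 3 * T := by
    rw [norm_mul]; gcongr
  have k2 : ‖a2 * r ^ 2‖ ≤ y ^ 3 * T := by
    rw [norm_mul, norm_pow]
    calc ‖a2‖ * ‖r‖ ^ 2 ≤ y ^ 2 * T ^ 2 := by (gcongr)
      _ ≤ y ^ 3 * T := by (gcongr)
  have k3 : ‖a1 * a2 * r‖ ≤ y ^ 3 * T := by
    rw [norm_mul, norm_mul]
    calc ‖a1‖ * ‖a2‖ * ‖r‖ ≤ y * y ^ 2 * T := by (gcongr)
      _ = y ^ 3 * T := by ring
  have k4 : ‖a1 * r ^ 3‖ ≤ y ^ 3 * T := by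
    rw [norm_mul, norm_pow]
    calc ‖a1‖ * ‖r‖ ^ 3 ≤ y * T ^ 3 := by (gcongr)
      _ ≤ y ^ 3 * T := by (gcongr)
  have k5 : ‖a1 ^ 2 * r ^ 2‖ ≤ y ^ 3 * T := by
    rw [norm_mul, norm_pow, norm_pow]
    calc ‖a1‖ ^ 2 * ‖r‖ ^ 2 ≤ y ^ 2 * T ^ 2 := by (gcongr)
      _ ≤ y ^ 3 * T := by (gcongr)
  have k6 : ‖a1 ^ 3 * r‖ ≤ y ^ 3 * T := by
    rw [norm_mul, norm_pow]
    gcongr
  have k7 : ‖r1 ^ 3‖ ≤ y ^ 3 * T := by
    rw [norm_pow]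
    calc ‖r1‖ ^ 3 ≤ T ^ 3 := by (gcongr)
      _ ≤ T := p3
      _ = 1 * T := (one_mul T).symm
      _ ≤ y ^ 3 * T := by (gcongr)
  have n2 : ∀ z : ℂ, ‖2 * z‖ = 2 * ‖z‖ := fun z => by simp
  have n3 : ∀ z : ℂ, ‖3 * z‖ = 3 * ‖z‖ := fun z => by simp
  have s1 := norm_sub_le (-(a3 * r) + 2 * (a2 * r ^ 2) + 3 * (a1 * a2 * r) - 2 * (a1 * r ^ 3) -
    2 * (a1 ^ 2 * r ^ 2) - 2 * (a1 ^ 3 * r)) (2 * r1 ^ 3)
  have t2 := norm_sub_le (-(a3 * r) + 2 * (a2 * r ^ 2) + 3 * (a1 * a2 * r) - 2 * (a1 * r ^ 3) -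
    2 * (a1 ^ 2 * r ^ 2)) (2 * (a1 ^ 3 * r))
  have t3 := norm_sub_le (-(a3 * r) + 2 * (a2 * r ^ 2) + 3 * (a1 * a2 * r) - 2 * (a1 * r ^ 3))
    (2 * (a1 ^ 2 * r ^ 2))
  have t4 := norm_sub_le (-(a3 * r) + 2 * (a2 * r ^ 2) + 3 * (a1 * a2 * r)) (2 * (a1 * r ^ 3))
  have t5 := norm_add_le (-(a3 * r) + 2 * (a2 * r ^ 2)) (3 * (a1 * a2 * r))
  have t6 := norm_add_le (-(a3 * r)) (2 * (a2 * r ^ 2))
  rw [n2] at s1 t2 t3 t4 t6
  rw [n3] at t5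
  rw [norm_neg] at t6
  linarith

lemma log_bd : ∃ K : ℝ, 0 < K ∧ ∀ x : ℝ, 2 ≤ x →
    (1 + Real.log x) ^ 27 ≤ K * x ^ (1 / 4 : ℝ) := by
  refine ⟨(109 : ℝ) ^ 27, by positivity, fun x hx => ?_⟩
  have hx0 : 0 < x := by linarith
  have h1 : Real.log x ≤ x ^ (1 / 108 : ℝ) / (1 / 108) :=
    Real.log_le_rpow_div hx0.le (by norm_num)
  have h2 : (1 : ℝ) ≤ x ^ (1 / 108 : ℝ) := Real.one_le_rpow (by linarith) (by norm_num)
  have h3 : 1 + Real.log x ≤ 109 * x ^ (1 / 108 : ℝ) := by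
    have : x ^ (1 / 108 : ℝ) / (1 / 108) = 108 * x ^ (1 / 108 : ℝ) := by ring
    linarith
  have h4 : 0 ≤ Real.log x := Real.log_nonneg (by linarith)
  calc (1 + Real.log x) ^ 27 ≤ (109 * x ^ (1 / 108 : ℝ)) ^ 27 := by (gcongr)
    _ = 109 ^ 27 * x ^ (1 / 4 : ℝ) := by
      rw [mul_pow, ← Real.rpow_natCast (x ^ (1 / 108 : ℝ)) 27, ← Real.rpow_mul hx0.le]
      norm_num

lemma large (B : ZBoundSt) (L : ZLowSt) : ∃ C : ℝ, 0 < C ∧ ∀ σ t : ℝ, 1 < σ → σ ≤ 2 →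
    2 ≤ |t| → ‖iteratedDeriv 2 Phi ((σ : ℂ) + (t : ℂ) * I)‖ ≤ C * (1 + |t|) ^ (-(3 / 4) : ℝ) := by
  obtain ⟨Cb, hCb, hB⟩ := B
  obtain ⟨c, hc, hL⟩ := L
  obtain ⟨K, hK, hKb⟩ := log_bd
  refine ⟨14 * (((1 + Cb) * (1 + 1 / c)) ^ 3 * K * 2), by positivity, ?_⟩
  intro σ t hσ hσ2 ht
  set s : ℂ := (σ : ℂ) + (t : ℂ) * I with hs
  have hre : s.re = σ := by simp [hs]
  have him : s.im = t := by simp [hs]
  have hs1 : 1 < s.re := by rw [hre]; exact hσ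
  rw [iter_Phi hs1]
  have hBs : ∀ j, j ≤ 3 → ‖Z j s‖ ≤ Cb * Real.log |t| ^ (j + 1) :=
    fun j hj => hB j hj σ t hσ hσ2 ht
  have hLs : c ≤ ‖Z 0 s‖ * Real.log |t| ^ 7 := by
    rw [Z_zero]
    exact hL σ t hσ hσ2 ht
  have hx1 : |t| ≤ ‖s‖ := by
    rw [← him]
    exact abs_im_le_norm s
  have hx2 : |t| ≤ ‖s - 1‖ := by
    have h1 : (s - 1).im = t := by simp [him]
    rw [← h1]
    exact abs_im_le_norm (s - 1)
  clear_value s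
  clear hB hL
  generalize hx : |t| = x at *
  have hx0 : 0 < x := by linarith
  have hl0 : 0 ≤ Real.log x := Real.log_nonneg (by linarith)
  obtain ⟨M, hM⟩ : ∃ M, M = 1 + Real.log x := ⟨_, rfl⟩
  have hM1 : 1 ≤ M := by linarith
  have hM0 : 0 ≤ M := by linarith
  obtain ⟨A, hA⟩ : ∃ A, A = 1 + Cb := ⟨_, rfl⟩
  have hA1 : 1 ≤ A := by linarith
  obtain ⟨E, hE⟩ : ∃ E, E = 1 + 1 / c := ⟨_, rfl⟩
  have hE1 : 1 ≤ E := by
    have : 0 < 1 / c := by positivity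
    linarith
  rw [← hA, ← hE]
  have hz : ∀ j, j ≤ 3 → ‖Z j s‖ ≤ A * M ^ (j + 1) := by
    intro j hj
    calc ‖Z j s‖ ≤ Cb * Real.log x ^ (j + 1) := hBs j hj
      _ ≤ A * M ^ (j + 1) := by
        gcongr
        · linarith
        · linarith
  have hz0 : 0 < ‖Z 0 s‖ := norm_pos_iff.2 (neZ hs1)
  have hq : ‖(Z 0 s)⁻¹‖ ≤ E * M ^ 7 := by
    have h1 : c ≤ ‖Z 0 s‖ * M ^ 7 := by
      calc c ≤ ‖Z 0 s‖ * Real.log x ^ 7 := hLs
        _ ≤ ‖Z 0 s‖ * M ^ 7 := by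
          gcongr
          linarith
    rw [norm_inv]
    calc ‖Z 0 s‖⁻¹ ≤ 1 / c * M ^ 7 := by
          rw [inv_le_iff_one_le_mul₀' hz0, div_mul_eq_mul_div, one_mul, mul_div_assoc', 
            le_div_iff₀ hc, one_mul]
          exact h1
      _ ≤ E * M ^ 7 := by
        gcongr
        linarith
  obtain ⟨y, hy⟩ : ∃ y, y = A * E * M ^ 9 := ⟨_, rfl⟩
  have hAE : 1 ≤ A * E := one_le_mul_of_one_le_of_one_le hA1 hE1
  have hy1 : 1 ≤ y := by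
    rw [hy]
    exact one_le_mul_of_one_le_of_one_le hAE (one_le_pow₀ hM1)
  have key := bd (a1 := Z 1 s * (Z 0 s)⁻¹) (a2 := Z 2 s * (Z 0 s)⁻¹) (a3 := Z 3 s * (Z 0 s)⁻¹)
    (r := s⁻¹) (r1 := (s - 1)⁻¹) (y := y) (T := x⁻¹) hy1 (by positivity)
    (inv_le_one_of_one_le₀ (by linarith))
    (by
      rw [norm_mul]
      calc ‖Z 1 s‖ * ‖(Z 0 s)⁻¹‖ ≤ (A * M ^ 2) * (E * M ^ 7) := by
            gcongr
            exact hz 1 (by norm_num)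
        _ = y := by rw [hy]; ring)
    (by
      rw [norm_mul]
      calc ‖Z 2 s‖ * ‖(Z 0 s)⁻¹‖ ≤ (A * M ^ 3) * (E * M ^ 7) := by
            gcongr
            exact hz 2 (by norm_num)
        _ = (A * E) * M ^ 10 := by ring
        _ ≤ (A * E) ^ 2 * M ^ 18 := by
            gcongr
            · exact le_self_pow₀ hAE (by norm_num)
            · norm_num
        _ = y ^ 2 := by rw [hy]; ring)
    (by
      rw [norm_mul]
      calc ‖Z 3 s‖ * ‖(Z 0 s)⁻¹‖ ≤ (A * M ^ 4) * (E * M ^ 7) := by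
            gcongr
            exact hz 3 (by norm_num)
        _ = (A * E) * M ^ 11 := by ring
        _ ≤ (A * E) ^ 3 * M ^ 27 := by
            gcongr
            · exact le_self_pow₀ hAE (by norm_num)
            · norm_num
        _ = y ^ 3 := by rw [hy]; ring)
    (by rw [norm_inv]; exact inv_anti₀ hx0 hx1)
    (by rw [norm_inv]; exact inv_anti₀ hx0 hx2)
  have a0 := ne0 hs1
  have a1 := ne1 hs1
  have aZ := neZ hs1
  have heq : Phi2 s = -(Z 3 s * (Z 0 s)⁻¹ * s⁻¹) + 2 * (Z 2 s * (Z 0 s)⁻¹ * s⁻¹ ^ 2) +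
      3 * (Z 1 s * (Z 0 s)⁻¹ * (Z 2 s * (Z 0 s)⁻¹) * s⁻¹) - 2 * (Z 1 s * (Z 0 s)⁻¹ * s⁻¹ ^ 3)
      - 2 * ((Z 1 s * (Z 0 s)⁻¹) ^ 2 * s⁻¹ ^ 2) - 2 * ((Z 1 s * (Z 0 s)⁻¹) ^ 3 * s⁻¹)
      - 2 * (s - 1)⁻¹ ^ 3 := by
    unfold Phi2
    simp only [div_eq_mul_inv, mul_inv, inv_pow, mul_pow, one_mul]
    ring
  rw [heq]
  refine key.trans ?_
  have h5 : y ^ 3 * x⁻¹ ≤ (A * E) ^ 3 * K * x ^ (-(3 / 4) : ℝ) := by
    have h6 := hKb x ht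
    have h7 : x ^ (1 / 4 : ℝ) * x⁻¹ = x ^ (-(3 / 4) : ℝ) := by
      rw [← Real.rpow_neg_one x, ← Real.rpow_add hx0]
      norm_num
    calc y ^ 3 * x⁻¹ = (A * E) ^ 3 * M ^ 27 * x⁻¹ := by rw [hy]; ring
      _ ≤ (A * E) ^ 3 * (K * x ^ (1 / 4 : ℝ)) * x⁻¹ := by rw [hM]; gcongr
      _ = (A * E) ^ 3 * K * (x ^ (1 / 4 : ℝ) * x⁻¹) := by ring
      _ = _ := by rw [h7]
  have h8 : x ^ (-(3 / 4) : ℝ) ≤ 2 * (1 + x) ^ (-(3 / 4) : ℝ) := by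
    have h9 : (2 * x) ^ (-(3 / 4) : ℝ) ≤ (1 + x) ^ (-(3 / 4) : ℝ) :=
      Real.rpow_le_rpow_of_nonpos (by linarith) (by linarith) (by norm_num)
    rw [Real.mul_rpow (by norm_num) hx0.le] at h9
    have h10 : (1 / 2 : ℝ) ≤ 2 ^ (-(3 / 4) : ℝ) := by
      calc (1 / 2 : ℝ) = 2 ^ (-1 : ℝ) := by rw [Real.rpow_neg_one]; norm_num
        _ ≤ 2 ^ (-(3 / 4) : ℝ) := Real.rpow_le_rpow_of_exponent_le (by norm_num) (by norm_num)
    have h11 : 0 ≤ x ^ (-(3 / 4) : ℝ) := by positivity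
    have h12 := mul_le_mul_of_nonneg_right h10 h11
    linarith
  calc 14 * (y ^ 3 * x⁻¹) ≤ 14 * ((A * E) ^ 3 * K * x ^ (-(3 / 4) : ℝ)) := by (gcongr)
    _ ≤ 14 * ((A * E) ^ 3 * K * (2 * (1 + x) ^ (-(3 / 4) : ℝ))) := by (gcongr)
    _ = _ := by ring

/-- the extension of `Phi` over the line `Re s = 1` -/
noncomputable def G (s : ℂ) : ℂ := -deriv riemannZeta₁ s / (s * riemannZeta₁ s) - 1 / s

lemma zeta1_ne_zero {s : ℂ} (hs : 1 ≤ s.re) : riemannZeta₁ s ≠ 0 := by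
  rcases eq_or_ne s 1 with rfl | h
  · simp
  · intro h0
    have h1 := riemannZeta_eq_inv_sub_mul h
    rw [h0, mul_zero] at h1
    exact riemannZeta_ne_zero_of_one_le_re hs h1

lemma Phi_eq_G {s : ℂ} (hs : 1 < s.re) : Phi s = G s := by
  have a0 := ne0 hs
  have a1 := ne1 hs
  have a2 := zeta1_ne_zero hs.le
  have h1 : s ≠ 1 := fun h => a1 (by rw [h, sub_self])
  unfold Phi G
  rw [deriv_riemannZeta_eq_neg_inv_sub_sq_mul_add h1, riemannZeta_eq_inv_sub_mul h1]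
  field_simp
  ring

/-- the region of regularity of `G` -/
def W : Set ℂ := {s | s ≠ 0 ∧ riemannZeta₁ s ≠ 0}

lemma isOpen_W : IsOpen W := by
  apply (isOpen_ne).inter
  exact isOpen_ne_fun differentiable_riemannZeta₁.continuous continuous_const

lemma G_analytic : AnalyticOnNhd ℂ G W := by
  have h1 : DifferentiableOn ℂ G W := by
    intro s hs
    apply DifferentiableAt.differentiableWithinAt
    have h2 : AnalyticAt ℂ riemannZeta₁ s := differentiable_riemannZeta₁.analyticAt s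
    have h3 : DifferentiableAt ℂ (deriv riemannZeta₁) s := h2.deriv.differentiableAt
    have h4 : DifferentiableAt ℂ riemannZeta₁ s := h2.differentiableAt
    unfold G
    exact ((h3.fun_neg).fun_div (differentiableAt_fun_id.fun_mul h4)
      (mul_ne_zero hs.1 hs.2)).fun_sub
      ((differentiableAt_const _).fun_div differentiableAt_fun_id hs.1)
  exact h1.analyticOnNhd isOpen_W

lemma small : ∃ C : ℝ, 0 < C ∧ ∀ σ t : ℝ, 1 < σ → σ ≤ 2 →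
    |t| ≤ 2 → ‖iteratedDeriv 2 Phi ((σ : ℂ) + (t : ℂ) * I)‖ ≤ C := by
  have h1 : ContinuousOn (iteratedDeriv 2 G) W := by
    rw [iteratedDeriv_eq_iterate]
    exact (G_analytic.iterated_deriv 2).continuousOn
  have hK : IsCompact (Set.Icc (1 : ℝ) 2 ×ℂ Set.Icc (-2 : ℝ) 2) :=
    isCompact_Icc.reProdIm isCompact_Icc
  have hKW : Set.Icc (1 : ℝ) 2 ×ℂ Set.Icc (-2 : ℝ) 2 ⊆ W := by
    intro s hs
    rw [mem_reProdIm] at hs
    refine ⟨?_, zeta1_ne_zero hs.1.1⟩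
    rintro rfl
    have := hs.1.1
    simp at this
    linarith
  obtain ⟨C, hC⟩ := hK.exists_bound_of_continuousOn (h1.mono hKW)
  refine ⟨max C 1, by positivity, fun σ t hσ hσ2 ht => ?_⟩
  set s : ℂ := (σ : ℂ) + (t : ℂ) * I with hs
  have hre : s.re = σ := by simp [hs]
  have him : s.im = t := by simp [hs]
  have h2 : iteratedDeriv 2 Phi s = iteratedDeriv 2 G s := by
    apply Filter.EventuallyEq.iteratedDeriv_eq
    have hs1 : 1 < s.re := by rw [hre]; exact hσ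
    filter_upwards [(isOpen_lt continuous_const continuous_re).mem_nhds hs1] with z hz
    exact Phi_eq_G hz
  rw [h2]
  refine (hC s ?_).trans (le_max_left _ _)
  rw [mem_reProdIm, hre, him]
  exact ⟨⟨hσ.le, hσ2⟩, abs_le.1 ht⟩

end DB

open DB in
theorem dBound (B : ZBoundSt) (L : ZLowSt) : DBoundSt := by
  obtain ⟨C1, hC1, h1⟩ := large B L
  obtain ⟨C2, hC2, h2⟩ := small
  refine ⟨C1 + 3 * C2, by positivity, fun σ t hσ hσ2 => ?_⟩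
  have h0 : 0 ≤ (1 + |t|) ^ (-(3 / 4) : ℝ) := by positivity
  rcases le_total 2 |t| with ht | ht
  · refine (h1 σ t hσ hσ2 ht).trans ?_
    gcongr
    linarith
  · refine (h2 σ t hσ hσ2 ht).trans ?_
    have h3 : (3 : ℝ) ^ (-(3 / 4) : ℝ) ≤ (1 + |t|) ^ (-(3 / 4) : ℝ) :=
      Real.rpow_le_rpow_of_nonpos (by positivity) (by linarith) (by norm_num)
    have h4 : (1 / 3 : ℝ) ≤ 3 ^ (-(3 / 4) : ℝ) := by
      calc (1 / 3 : ℝ) = 3 ^ (-1 : ℝ) := by rw [Real.rpow_neg_one]; norm_num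
        _ ≤ 3 ^ (-(3 / 4) : ℝ) := Real.rpow_le_rpow_of_exponent_le (by norm_num) (by norm_num)
    have h5 : (1 / 3 : ℝ) ≤ (1 + |t|) ^ (-(3 / 4) : ℝ) := h4.trans h3
    have h6 : C2 ≤ 3 * C2 * (1 + |t|) ^ (-(3 / 4) : ℝ) := by
      have := mul_le_mul_of_nonneg_left h5 (by positivity : 0 ≤ 3 * C2)
      linarith
    have h7 : 0 ≤ C1 * (1 + |t|) ^ (-(3 / 4) : ℝ) := by positivity
    rw [add_mul]
    linarith

end Pool.Agent.H61.PNT
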