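import Mathlib

/-!
# Prime number theorem with error term `o(x / log x)` for `ψ`: statements of the modules
-/

set_option autoImplicit false

namespace Pool.Agent.H61.PNT

open Complex MeasureTheory Set

/-! ### ZBound.lean -/

/-- Bounds for the derivatives of `ζ` to the right of the line `Re s = 1`. -/
def ZBoundSt : Prop := ∃ C : ℝ, 0 < C ∧ ∀ j : ℕ, j ≤ 3 → ∀ σ t : ℝ, 1 < σ → σ ≤ 2 → 2 ≤ |t| →
  ‖iteratedDeriv j riemannZeta ((σ : ℂ) + (t : ℂ) * I)‖ ≤ C * Real.log |t| ^ (j + 1)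

/-! ### ZLow.lean -/

/-- `1/ζ = O(log^7)`. -/
def ZLowSt : Prop := ∃ c : ℝ, 0 < c ∧ ∀ σ t : ℝ, 1 < σ → σ ≤ 2 → 2 ≤ |t| →
  c ≤ ‖riemannZeta ((σ : ℂ) + (t : ℂ) * I)‖ * Real.log |t| ^ 7

/-! ### DBound.lean -/

/-- `-ζ'/(s ζ) - 1/(s-1)` -/
noncomputable def Phi (s : ℂ) : ℂ := -deriv riemannZeta s / (s * riemannZeta s) - 1 / (s - 1)

/-- The second derivative of `Phi` is `O(|t|^(-3/4))` for `1 < Re s ≤ 2`. -/
def DBoundSt : Prop := ∃ C : ℝ, 0 < C ∧ ∀ σ t : ℝ, 1 < σ → σ ≤ 2 →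
  ‖iteratedDeriv 2 Phi ((σ : ℂ) + (t : ℂ) * I)‖ ≤ C * (1 + |t|) ^ (-(3 / 4) : ℝ)

/-! ### Laplace.lean -/

/-- `Phi''` as an integral. -/
def LaplaceSt : Prop := ∀ s : ℂ, 1 < s.re →
  IntegrableOn (fun x : ℝ => (((Chebyshev.psi x - x) * Real.log x ^ 2 : ℝ) : ℂ) * (x : ℂ) ^ (-(s + 1)))
    (Ioi 1) ∧
  ∫ x in Ioi (1 : ℝ), (((Chebyshev.psi x - x) * Real.log x ^ 2 : ℝ) : ℂ) * (x : ℂ) ^ (-(s + 1)) =
    iteratedDeriv 2 Phi s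

/-! ### Fejer.lean -/

/-- Fejér's kernel, `∫_{-l}^{l} (1 - |t|/l) exp(i t y) dt`. -/
noncomputable def kf (l y : ℝ) : ℝ := 2 * (1 - Real.cos (l * y)) / (l * y ^ 2)

/-- The smoothed error term is small. -/
def FejerSt : Prop := ∃ C : ℝ, 0 < C ∧ ∀ v l w : ℝ, 1 ≤ v → 1 ≤ l → 
  |∫ x in Ioi (1 : ℝ), (Chebyshev.psi x - x) * Real.log x ^ 2 * x ^ (-(2 + 1 / v) : ℝ) *
    kf l (w - Real.log x)| ≤ C * l ^ (1 / 4 : ℝ)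

/-! ### Tauber.lean -/

/-- Prime number theorem with `o(x/log x)`. -/
def PsiSt : Prop := ∀ A : ℝ, 0 < A → ∃ x₀ : ℝ, ∀ x : ℝ, x₀ ≤ x →
  |Chebyshev.psi x - x| ≤ A * x / Real.log x

/-! ### PNT.lean -/

/-- Prime number theorem with error term `O(x/log² x)` for `π`. -/
def PNTSt : Prop := ∃ C : ℝ, 0 < C ∧ ∀ x : ℝ, 2 ≤ x →
  |(Nat.primeCounting ⌊x⌋₊ : ℝ) - x / Real.log x| ≤ C * x / Real.log x ^ 2

end Pool.Agent.H61.PNT
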