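import Pool.Agent.H61.PNT.Defs

set_option autoImplicit false

namespace Pool.Agent.H61.PNT

open Complex Set Filter Topology

namespace ZB

/-- antiderivative of `(log x)^j x^(-s)` -/
noncomputable def A (s : ℂ) : ℕ → ℝ → ℂ
  | 0, x => -((x : ℂ) ^ (1 - s)) / (s - 1)
  | (j + 1), x => (-((Real.log x : ℂ) ^ (j + 1) * (x : ℂ) ^ (1 - s)) + ((j : ℂ) + 1) * A s j x) / (s - 1)

/-- the summand as a function of a real variable -/
noncomputable def f (s : ℂ) (j : ℕ) (x : ℝ) : ℂ := (Real.log x : ℂ) ^ j * (x : ℂ) ^ (-s)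

lemma hasDeriv_log {x : ℝ} (hx : 0 < x) (j : ℕ) :
    HasDerivAt (fun y : ℝ => (Real.log y : ℂ) ^ (j + 1))
      (((j : ℂ) + 1) * (Real.log x : ℂ) ^ j * ((x : ℂ)⁻¹)) x := by
  have h1 : HasDerivAt (fun y : ℝ => (Real.log y : ℂ)) ((x⁻¹ : ℝ) : ℂ) x :=
    (Real.hasDerivAt_log hx.ne').ofReal_comp
  have h2 := h1.fun_pow (j + 1)
  refine h2.congr_deriv ?_
  push_cast
  simp

lemma hasDeriv_A (s : ℂ) (hs : s ≠ 1) (j : ℕ) {x : ℝ} (hx : 0 < x) :
    HasDerivAt (A s j) (f s j x) x := by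
  have hs' : s - 1 ≠ 0 := sub_ne_zero.2 hs
  have hs2 : 1 - s ≠ 0 := sub_ne_zero.2 (Ne.symm hs)
  have hx' : (x : ℂ) ≠ 0 := by exact_mod_cast hx.ne'
  have hp := hasDerivAt_ofReal_cpow_const hx.ne' hs2
  have e1 : (x : ℂ) ^ (1 - s - 1) = (x : ℂ) ^ (-s) := by congr 1; ring
  rw [e1] at hp
  have e2 : (x : ℂ) ^ (1 - s) = x * (x : ℂ) ^ (-s) := by
    rw [sub_eq_add_neg, cpow_add _ _ hx', cpow_one]
  induction j with
  | zero =>
    have h := (hp.neg).div_const (s - 1)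
    have e3 : -((1 - s) * (x : ℂ) ^ (-s)) / (s - 1) = f s 0 x := by
      unfold f; field_simp; ring
    rw [e3] at h
    exact h
  | succ j ih =>
    have h1 := ((hasDeriv_log hx j).mul hp).neg
    have h2 := (h1.add (ih.const_mul ((j : ℂ) + 1))).div_const (s - 1)
    refine (h2.congr_deriv ?_)
    unfold f
    rw [e2]
    field_simp
    ring

lemma norm_cpow_le (s : ℂ) {x : ℝ} (hx : 1 ≤ x) : ‖(x : ℂ) ^ (1 - s)‖ = x ^ (1 - s.re) := by
  rw [norm_cpow_eq_rpow_re_of_pos (by linarith)]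
  simp

lemma norm_A_le {s : ℂ} (h1 : 1 ≤ ‖s - 1‖) (j : ℕ) {x : ℝ} (hx : 1 ≤ x) :
    ‖A s j x‖ ≤ (Nat.factorial (j + 1) : ℝ) * (1 + Real.log x) ^ j * x ^ (1 - s.re) := by
  have hl : 0 ≤ Real.log x := Real.log_nonneg hx
  have hr : 0 ≤ x ^ (1 - s.re) := Real.rpow_nonneg (by linarith) _
  induction j with
  | zero =>
    simp only [A, norm_div, norm_neg, norm_cpow_le s hx]
    simp
    exact div_le_self hr h1
  | succ j ih =>
    simp only [A, norm_div]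
    refine (div_le_self (norm_nonneg _) h1).trans ?_
    refine (norm_add_le _ _).trans ?_
    rw [norm_neg, norm_mul, norm_mul, norm_pow, norm_real, Real.norm_of_nonneg hl, norm_cpow_le s hx]
    have e : ‖(j : ℂ) + 1‖ = (j : ℝ) + 1 := by
      have : ((j : ℂ) + 1) = ((j + 1 : ℕ) : ℂ) := by push_cast; ring
      rw [this, Complex.norm_natCast]; push_cast; ring
    rw [e]
    have hlp : Real.log x ^ (j + 1) ≤ (1 + Real.log x) ^ (j + 1) :=
      pow_le_pow_left₀ hl (by linarith) _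
    have hlq : (1 + Real.log x) ^ j ≤ (1 + Real.log x) ^ (j + 1) :=
      pow_le_pow_right₀ (by linarith) (by omega)
    have hf1 : (1 : ℝ) ≤ (Nat.factorial (j + 1) : ℝ) := by
      exact_mod_cast Nat.factorial_pos (j + 1)
    have hf2 : (Nat.factorial (j + 1 + 1) : ℝ) = ((j : ℝ) + 2) * (Nat.factorial (j + 1) : ℝ) := by
      rw [Nat.factorial_succ (j + 1)]; push_cast; ring
    calc Real.log x ^ (j + 1) * x ^ (1 - s.re) + ((j : ℝ) + 1) * ‖A s j x‖
        ≤ (1 + Real.log x) ^ (j + 1) * x ^ (1 - s.re) +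
          ((j : ℝ) + 1) * ((Nat.factorial (j + 1) : ℝ) * (1 + Real.log x) ^ (j + 1) * x ^ (1 - s.re)) := by
          gcongr
          refine ih.trans ?_
          gcongr
      _ ≤ (Nat.factorial (j + 1) : ℝ) * ((1 + Real.log x) ^ (j + 1) * x ^ (1 - s.re)) +
          ((j : ℝ) + 1) * ((Nat.factorial (j + 1) : ℝ) * (1 + Real.log x) ^ (j + 1) * x ^ (1 - s.re)) := by
          refine add_le_add (le_mul_of_one_le_left ?_ hf1) le_rfl
          exact mul_nonneg (pow_nonneg (by linarith) _) hr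
      _ = (Nat.factorial (j + 1 + 1) : ℝ) * (1 + Real.log x) ^ (j + 1) * x ^ (1 - s.re) := by
          rw [hf2]; ring

/-- derivative of `f` -/
lemma hasDeriv_f (s : ℂ) (hs : s ≠ 0) (j : ℕ) {x : ℝ} (hx : 0 < x) :
    HasDerivAt (f s j) (((j : ℂ) * (Real.log x : ℂ) ^ (j - 1) - s * (Real.log x : ℂ) ^ j) *
      (x : ℂ) ^ (-s - 1)) x := by
  have hs2 : -s ≠ 0 := neg_ne_zero.2 hs
  have hx' : (x : ℂ) ≠ 0 := by exact_mod_cast hx.ne'
  have hp := hasDerivAt_ofReal_cpow_const hx.ne' hs2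
  have e2 : (x : ℂ) ^ (-s) = x * (x : ℂ) ^ (-s - 1) := by
    have e3 : (-s : ℂ) = 1 + (-s - 1) := by ring
    conv_lhs => rw [e3]
    rw [cpow_add _ _ hx', cpow_one]
  cases j with
  | zero =>
    refine (((hasDerivAt_const x (1 : ℂ)).mul hp).congr_deriv ?_).congr_of_eventuallyEq ?_
    · simp
    · exact Filter.Eventually.of_forall fun y => by simp [f]
  | succ j =>
    have h := (hasDeriv_log hx j).mul hp
    refine h.congr_deriv ?_
    rw [e2]
    simp only [Nat.add_sub_cancel]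
    push_cast
    field_simp
    ring

lemma norm_deriv_f_le {s : ℂ} (hs : 1 ≤ s.re) (j : ℕ) (x b a : ℝ) (ha : 1 ≤ a) (hax : a ≤ x) (hxb : x ≤ b) :
    ‖((j : ℂ) * (Real.log x : ℂ) ^ (j - 1) - s * (Real.log x : ℂ) ^ j) * (x : ℂ) ^ (-s - 1)‖ ≤
      ((j : ℝ) + ‖s‖) * (1 + Real.log b) ^ j / a ^ 2 := by
  have hx0 : 0 < x := by linarith
  have hl : 0 ≤ Real.log x := Real.log_nonneg (by linarith)
  have hlb : Real.log x ≤ Real.log b := Real.log_le_log hx0 hxb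
  have h1 : ‖(x : ℂ) ^ (-s - 1)‖ ≤ 1 / a ^ 2 := by
    rw [norm_cpow_eq_rpow_re_of_pos hx0]
    have : (-s - 1).re = -s.re - 1 := by simp
    rw [this]
    calc x ^ (-s.re - 1) ≤ x ^ (-2 : ℝ) :=
          Real.rpow_le_rpow_of_exponent_le (by linarith) (by linarith)
      _ = 1 / x ^ 2 := by
          rw [Real.rpow_neg hx0.le]; norm_num
      _ ≤ 1 / a ^ 2 := by gcongr
  have hb1 : 1 ≤ 1 + Real.log b := by linarith
  have h2 : ‖(j : ℂ) * (Real.log x : ℂ) ^ (j - 1) - s * (Real.log x : ℂ) ^ j‖ ≤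
      ((j : ℝ) + ‖s‖) * (1 + Real.log b) ^ j := by
    refine (norm_sub_le _ _).trans ?_
    rw [norm_mul, norm_mul, norm_pow, norm_pow, norm_real, Real.norm_of_nonneg hl, Complex.norm_natCast]
    have p1 : Real.log x ^ (j - 1) ≤ (1 + Real.log b) ^ j :=
      (pow_le_pow_left₀ hl (by linarith) _).trans (pow_le_pow_right₀ hb1 (by omega))
    have p2 : Real.log x ^ j ≤ (1 + Real.log b) ^ j := pow_le_pow_left₀ hl (by linarith) _
    calc (j : ℝ) * Real.log x ^ (j - 1) + ‖s‖ * Real.log x ^ j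
        ≤ (j : ℝ) * (1 + Real.log b) ^ j + ‖s‖ * (1 + Real.log b) ^ j := by gcongr
      _ = _ := by ring
  rw [norm_mul]
  calc _ ≤ (((j : ℝ) + ‖s‖) * (1 + Real.log b) ^ j) * (1 / a ^ 2) := by gcongr
    _ = _ := by ring

/-- One step of Euler summation. -/
lemma step {s : ℂ} (hs : 1 ≤ s.re) (hs1 : s ≠ 1) (j : ℕ) (n : ℕ) (hn : 1 ≤ n) :
    ‖A s j ((n : ℝ) + 1) - A s j n - f s j ((n : ℝ) + 1)‖ ≤
      ((j : ℝ) + ‖s‖) * (1 + Real.log ((n : ℝ) + 1)) ^ j / (n : ℝ) ^ 2 := by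
  have hs0 : s ≠ 0 := by rintro rfl; simp at hs; linarith
  have hn1 : (1 : ℝ) ≤ n := by exact_mod_cast hn
  set D : ℝ := ((j : ℝ) + ‖s‖) * (1 + Real.log ((n : ℝ) + 1)) ^ j / (n : ℝ) ^ 2 with hD
  have hD0 : 0 ≤ D := by
    have : 0 ≤ Real.log ((n : ℝ) + 1) := Real.log_nonneg (by linarith)
    positivity
  set I : Set ℝ := Icc (n : ℝ) ((n : ℝ) + 1) with hI
  have hconv : Convex ℝ I := convex_Icc _ _
  -- `f` is `D`-Lipschitz on `I`
  have hf : ∀ x ∈ I, ‖f s j x - f s j ((n : ℝ) + 1)‖ ≤ D := by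
    intro x hx
    have h := hconv.norm_image_sub_le_of_norm_hasDerivWithin_le (f := f s j)
      (f' := fun x => ((j : ℂ) * (Real.log x : ℂ) ^ (j - 1) - s * (Real.log x : ℂ) ^ j) * (x : ℂ) ^ (-s - 1))
      (C := D) (fun y hy => (hasDeriv_f s hs0 j (by have := hy.1; linarith)).hasDerivWithinAt)
      (fun y hy => norm_deriv_f_le hs j y _ _ hn1 hy.1 hy.2)
      (x := (n : ℝ) + 1) (y := x) ⟨by linarith, le_refl _⟩ hx
    refine h.trans ?_
    have : ‖x - ((n : ℝ) + 1)‖ ≤ 1 := by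
      rw [Real.norm_eq_abs, abs_le]; constructor <;> linarith [hx.1, hx.2]
    calc D * ‖x - ((n : ℝ) + 1)‖ ≤ D * 1 := by gcongr
      _ = D := mul_one _
  have h := hconv.norm_image_sub_le_of_norm_hasDerivWithin_le
    (f := fun x : ℝ => A s j x - (x : ℂ) * f s j ((n : ℝ) + 1))
    (f' := fun x => f s j x - f s j ((n : ℝ) + 1))
    (C := D) (fun y hy => by
      have hy0 : 0 < y := by have := hy.1; linarith
      have h1 := hasDeriv_A s hs1 j hy0
      have h2 : HasDerivAt (fun x : ℝ => (x : ℂ) * f s j ((n : ℝ) + 1)) (f s j ((n : ℝ) + 1)) y := by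
        have := (hasDerivAt_id y).ofReal_comp.mul_const (f s j ((n : ℝ) + 1))
        simpa using this
      exact (h1.sub h2).hasDerivWithinAt) hf
    (x := (n : ℝ)) (y := (n : ℝ) + 1) ⟨le_refl _, by linarith⟩ ⟨by linarith, le_refl _⟩
  have e : ‖((n : ℝ) + 1) - (n : ℝ)‖ = 1 := by simp
  rw [e, mul_one] at h
  refine le_trans (le_of_eq ?_) h
  congr 1
  push_cast
  ring


lemma log_cube_le {y : ℝ} (hy : 1 ≤ y) (j : ℕ) (hj : j ≤ 3) : (1 + Real.log y) ^ j ≤ 343 * √y := by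
  have hl : 0 ≤ Real.log y := Real.log_nonneg hy
  have h1 : (1 + Real.log y) ^ j ≤ (1 + Real.log y) ^ 3 := pow_le_pow_right₀ (by linarith) hj
  have h2 : Real.log y ≤ y ^ (1 / 6 : ℝ) / (1 / 6) := Real.log_le_rpow_div (by linarith) (by norm_num)
  have h3 : 1 ≤ y ^ (1 / 6 : ℝ) := Real.one_le_rpow hy (by norm_num)
  have h4 : 1 + Real.log y ≤ 7 * y ^ (1 / 6 : ℝ) := by linarith
  have h5 : (y ^ (1 / 6 : ℝ)) ^ 3 = √y := by
    rw [← Real.rpow_natCast, ← Real.rpow_mul (by linarith), Real.sqrt_eq_rpow]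
    norm_num
  calc (1 + Real.log y) ^ j ≤ (1 + Real.log y) ^ 3 := h1
    _ ≤ (7 * y ^ (1 / 6 : ℝ)) ^ 3 := pow_le_pow_left₀ (by linarith) h4 3
    _ = 343 * √y := by rw [mul_pow, h5]; norm_num

lemma err (n : ℕ) (hn : 1 ≤ n) (j : ℕ) (hj : j ≤ 3) (c : ℝ) (hc : 0 ≤ c) :
    ((j : ℝ) + c) * (1 + Real.log ((n : ℝ) + 1)) ^ j / (n : ℝ) ^ 2 ≤
      2744 * (3 + c) * (1 / √(n : ℝ) - 1 / √((n : ℝ) + 1)) := by
  have hn1 : (1 : ℝ) ≤ n := by exact_mod_cast hn
  have hjr : (j : ℝ) ≤ 3 := by exact_mod_cast hj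
  set a := √(n : ℝ) with ha
  set b := √((n : ℝ) + 1) with hb
  have ha2 : a ^ 2 = n := Real.sq_sqrt (by linarith)
  have hb2 : b ^ 2 = (n : ℝ) + 1 := Real.sq_sqrt (by linarith)
  have ha0 : 0 < a := Real.sqrt_pos.2 (by linarith)
  have hb0 : 0 < b := Real.sqrt_pos.2 (by linarith)
  have hab : a ≤ b := Real.sqrt_le_sqrt (by linarith)
  have h1 : (1 + Real.log ((n : ℝ) + 1)) ^ j ≤ 343 * b := log_cube_le (by linarith) j hj
  have hlog : 0 ≤ Real.log ((n : ℝ) + 1) := Real.log_nonneg (by linarith)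
  have h2 : 1 / a - 1 / b = 1 / (a * b * (a + b)) := by
    have : b ^ 2 - a ^ 2 = 1 := by rw [ha2, hb2]; ring
    have hd : (b - a) * (b + a) = 1 := by nlinarith
    field_simp
    nlinarith
  have h3 : 1 / (2 * b ^ 3) ≤ 1 / a - 1 / b := by
    rw [h2]
    apply one_div_le_one_div_of_le (by positivity)
    nlinarith [mul_nonneg ha0.le hb0.le, mul_le_mul_of_nonneg_right hab hb0.le,
      mul_le_mul_of_nonneg_left hab (mul_nonneg ha0.le hb0.le), mul_le_mul_of_nonneg_right hab (sq_nonneg b)]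
  have h4 : b ^ 4 / 4 ≤ (n : ℝ) ^ 2 := by
    have : b ^ 4 = ((n : ℝ) + 1) ^ 2 := by rw [← hb2]; ring
    rw [this]; nlinarith
  calc ((j : ℝ) + c) * (1 + Real.log ((n : ℝ) + 1)) ^ j / (n : ℝ) ^ 2
      ≤ (3 + c) * (343 * b) / (b ^ 4 / 4) := by gcongr
    _ = 2744 * (3 + c) * (1 / (2 * b ^ 3)) := by field_simp; ring
    _ ≤ 2744 * (3 + c) * (1 / a - 1 / b) := by gcongr

lemma tel {s : ℂ} (hs : 1 ≤ s.re) (hs1 : s ≠ 1) (j : ℕ) (hj : j ≤ 3) (N : ℕ) (hN : 1 ≤ N) (M : ℕ)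
    (hM : N ≤ M) :
    ‖∑ n ∈ Finset.Ioc N M, f s j n - (A s j M - A s j N)‖ ≤
      2744 * (3 + ‖s‖) * (1 / √(N : ℝ) - 1 / √(M : ℝ)) := by
  induction M, hM using Nat.le_induction with
  | base => simp
  | succ M hM ih =>
    rw [← Finset.insert_Ioc_right_eq_Ioc_add_one (by omega), Finset.sum_insert (by simp)]
    have h1 := step hs hs1 j M (by omega)
    have h2 := err M (by omega) j hj ‖s‖ (norm_nonneg _)
    have e : f s j ((M + 1 : ℕ) : ℝ) + ∑ n ∈ Finset.Ioc N M, f s j n -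
        (A s j ((M + 1 : ℕ) : ℝ) - A s j N) =
        (∑ n ∈ Finset.Ioc N M, f s j n - (A s j M - A s j N)) -
        (A s j ((M : ℝ) + 1) - A s j M - f s j ((M : ℝ) + 1)) := by
      push_cast; ring
    rw [e]
    refine (norm_sub_le _ _).trans ?_
    push_cast
    linarith

lemma tendsto_A {s : ℂ} (hs : 1 < s.re) (h1 : 1 ≤ ‖s - 1‖) (j : ℕ) (hj : j ≤ 3) :
    Tendsto (fun M : ℕ => ‖A s j (M : ℝ)‖) atTop (𝓝 0) := by
  set e : ℝ := (s.re - 1) / 6 with he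
  have he0 : 0 < e := by rw [he]; linarith
  have hlim : Tendsto (fun M : ℕ => (24 * (1 + 1 / e) ^ 3 : ℝ) * (M : ℝ) ^ (-(3 * e))) atTop (𝓝 0) := by
    have := ((tendsto_rpow_neg_atTop (show 0 < 3 * e by positivity)).comp
      tendsto_natCast_atTop_atTop).const_mul (24 * (1 + 1 / e) ^ 3 : ℝ)
    simpa using this
  refine squeeze_zero_norm' ?_ hlim
  filter_upwards [eventually_ge_atTop 1] with M hM
  have hM1 : (1 : ℝ) ≤ M := by exact_mod_cast hM
  have hl : 0 ≤ Real.log (M : ℝ) := Real.log_nonneg hM1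
  rw [norm_norm]
  refine (norm_A_le h1 j hM1).trans ?_
  have hfac : (Nat.factorial (j + 1) : ℝ) ≤ 24 := by
    have : Nat.factorial (j + 1) ≤ Nat.factorial 4 := Nat.factorial_le (by omega)
    exact_mod_cast this
  have p1 : (1 + Real.log (M : ℝ)) ^ j ≤ (1 + Real.log (M : ℝ)) ^ 3 := pow_le_pow_right₀ (by linarith) hj
  have p2 : 1 + Real.log (M : ℝ) ≤ (1 + 1 / e) * (M : ℝ) ^ e := by
    have := Real.log_le_rpow_div (show (0 : ℝ) ≤ M by linarith) he0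
    have h3 : 1 ≤ (M : ℝ) ^ e := Real.one_le_rpow hM1 he0.le
    calc 1 + Real.log (M : ℝ) ≤ (M : ℝ) ^ e + (M : ℝ) ^ e / e := by linarith
      _ = _ := by field_simp
  have p3 : (1 + Real.log (M : ℝ)) ^ 3 ≤ (1 + 1 / e) ^ 3 * (M : ℝ) ^ (3 * e) := by
    calc (1 + Real.log (M : ℝ)) ^ 3 ≤ ((1 + 1 / e) * (M : ℝ) ^ e) ^ 3 :=
          pow_le_pow_left₀ (by linarith) p2 3
      _ = _ := by
        rw [mul_pow, ← Real.rpow_natCast ((M : ℝ) ^ e), ← Real.rpow_mul (by linarith)]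
        congr 2
        push_cast; ring
  have p4 : (M : ℝ) ^ (3 * e) * (M : ℝ) ^ (1 - s.re) = (M : ℝ) ^ (-(3 * e)) := by
    rw [← Real.rpow_add (by linarith)]
    congr 1
    rw [he]; ring
  calc (Nat.factorial (j + 1) : ℝ) * (1 + Real.log (M : ℝ)) ^ j * (M : ℝ) ^ (1 - s.re)
      ≤ 24 * ((1 + 1 / e) ^ 3 * (M : ℝ) ^ (3 * e)) * (M : ℝ) ^ (1 - s.re) := by
        gcongr
        exact p1.trans p3
    _ = 24 * (1 + 1 / e) ^ 3 * ((M : ℝ) ^ (3 * e) * (M : ℝ) ^ (1 - s.re)) := by ring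
    _ = _ := by rw [p4]

lemma head_le {s : ℂ} (hs : 1 ≤ s.re) (j : ℕ) (N : ℕ) :
    ‖∑ n ∈ Finset.Ioc 0 N, f s j n‖ ≤ (1 + Real.log N) ^ (j + 1) := by
  rcases Nat.eq_zero_or_pos N with h | hN
  · subst h; simp
  have hN1 : (1 : ℝ) ≤ N := by exact_mod_cast hN
  have hlN : 0 ≤ Real.log (N : ℝ) := Real.log_nonneg hN1
  have h1 : ∀ n ∈ Finset.Ioc 0 N, ‖f s j n‖ ≤ (1 + Real.log N) ^ j * ((n : ℝ))⁻¹ := by
    intro n hn
    obtain ⟨h0, hnN⟩ := Finset.mem_Ioc.1 hn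
    have hn1 : (1 : ℝ) ≤ n := by exact_mod_cast h0
    have hl : 0 ≤ Real.log (n : ℝ) := Real.log_nonneg hn1
    have hll : Real.log (n : ℝ) ≤ Real.log N := Real.log_le_log (by linarith) (by exact_mod_cast hnN)
    unfold f
    rw [norm_mul, norm_pow, norm_real, Real.norm_of_nonneg hl,
      norm_cpow_eq_rpow_re_of_pos (by linarith)]
    have e1 : (n : ℝ) ^ (-s).re ≤ ((n : ℝ))⁻¹ := by
      rw [← Real.rpow_neg_one]
      exact Real.rpow_le_rpow_of_exponent_le hn1 (by simp; linarith)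
    gcongr
    linarith
  refine (norm_sum_le_of_le _ h1).trans ?_
  rw [← Finset.mul_sum, pow_succ]
  have h2 : ∑ n ∈ Finset.Ioc 0 N, ((n : ℝ))⁻¹ ≤ 1 + Real.log N := by
    have h3 := harmonic_le_one_add_log N
    refine le_trans (le_of_eq ?_) h3
    rw [harmonic_eq_sum_Icc]
    push_cast
    rfl
  gcongr


lemma iter_logMul (j n : ℕ) : (LSeries.logMul^[j] 1) n = (Real.log n : ℂ) ^ j := by
  induction j with
  | zero => simp
  | succ j ih =>
    rw [Function.iterate_succ', Function.comp_apply, LSeries.logMul, ih, pow_succ, ← natCast_log]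
    ring

lemma term_eq {s : ℂ} (j n : ℕ) (hn : n ≠ 0) : LSeries.term (LSeries.logMul^[j] 1) s n = f s j n := by
  rw [LSeries.term_of_ne_zero hn, iter_logMul, f, div_eq_mul_inv, cpow_neg]
  simp

lemma bound {s : ℂ} (hs : 1 < s.re) (h1 : 1 ≤ ‖s - 1‖) (j : ℕ) (hj : j ≤ 3) (N : ℕ) (hN : 1 ≤ N) :
    ‖iteratedDeriv j riemannZeta s‖ ≤ 25 * (1 + Real.log N) ^ (j + 1) + 2744 * (3 + ‖s‖) * (1 / √(N : ℝ)) := by
  have hs1 : s ≠ 1 := by rintro rfl; simp at hs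
  have hab : LSeries.abscissaOfAbsConv (1 : ℕ → ℂ) < s.re := by
    rw [LSeries.abscissaOfAbsConv_one]; exact_mod_cast hs
  have hev : riemannZeta =ᶠ[𝓝 s] LSeries 1 := by
    have ho : IsOpen {z : ℂ | 1 < z.re} := isOpen_lt continuous_const continuous_re
    filter_upwards [ho.mem_nhds hs] with z hz
    exact (LSeries_one_eq_riemannZeta hz).symm
  have hd : iteratedDeriv j riemannZeta s = (-1) ^ j * LSeries (LSeries.logMul^[j] 1) s := by
    rw [hev.iteratedDeriv_eq, LSeries_iteratedDeriv j hab]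
  rw [hd, norm_mul, norm_pow, norm_neg, norm_one, one_pow, one_mul]
  have hsum : LSeriesSummable (LSeries.logMul^[j] 1) s :=
    LSeriesSummable_of_abscissaOfAbsConv_lt_re (by rw [LSeries.absicssaOfAbsConv_logPowMul]; exact hab)
  have hlim := hsum.LSeriesHasSum.tendsto_sum_nat
  have hlim2 : Tendsto (fun M : ℕ => ‖∑ n ∈ Finset.Ioc 0 M, f s j n‖) atTop
      (𝓝 ‖LSeries (LSeries.logMul^[j] 1) s‖) := by
    have := (hlim.comp (tendsto_add_atTop_nat 1)).norm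
    refine this.congr fun M => ?_
    simp only [Function.comp]
    congr 1
    rw [Finset.range_eq_Ico, Finset.sum_eq_sum_Ico_succ_bot (by omega), LSeries.term_zero, zero_add]
    refine Finset.sum_congr (by ext; simp; omega) fun n hn => term_eq j n ?_
    have := (Finset.mem_Ioc.1 hn).1
    omega
  have hA := tendsto_A hs h1 j hj
  have hlim3 : Tendsto (fun M : ℕ => ‖∑ n ∈ Finset.Ioc 0 M, f s j n‖ - ‖A s j (M : ℝ)‖) atTop
      (𝓝 (‖LSeries (LSeries.logMul^[j] 1) s‖ - 0)) := hlim2.sub hA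
  rw [sub_zero] at hlim3
  refine le_of_tendsto hlim3 ?_
  filter_upwards [eventually_ge_atTop N] with M hM
  have hN1 : (1 : ℝ) ≤ N := by exact_mod_cast hN
  have hlN : 0 ≤ Real.log (N : ℝ) := Real.log_nonneg hN1
  have t1 := tel hs.le hs1 j hj N hN M hM
  have t2 := head_le hs.le j N
  have t3 := norm_A_le h1 j hN1
  have t4 : ‖A s j (N : ℝ)‖ ≤ 24 * (1 + Real.log N) ^ (j + 1) := by
    refine t3.trans ?_
    have hfac : (Nat.factorial (j + 1) : ℝ) ≤ 24 := by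
      have : Nat.factorial (j + 1) ≤ Nat.factorial 4 := Nat.factorial_le (by omega)
      exact_mod_cast this
    have p1 : (1 + Real.log (N : ℝ)) ^ j ≤ (1 + Real.log (N : ℝ)) ^ (j + 1) :=
      pow_le_pow_right₀ (by linarith) (by omega)
    have p2 : (N : ℝ) ^ (1 - s.re) ≤ 1 := Real.rpow_le_one_of_one_le_of_nonpos hN1 (by linarith)
    have p3 : 0 ≤ (1 + Real.log (N : ℝ)) ^ j := pow_nonneg (by linarith) _
    calc (Nat.factorial (j + 1) : ℝ) * (1 + Real.log (N : ℝ)) ^ j * (N : ℝ) ^ (1 - s.re)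
        ≤ 24 * (1 + Real.log (N : ℝ)) ^ (j + 1) * 1 := by gcongr
      _ = _ := mul_one _
  have e : ∑ n ∈ Finset.Ioc 0 M, f s j n = ∑ n ∈ Finset.Ioc 0 N, f s j n + ∑ n ∈ Finset.Ioc N M, f s j n :=
    (Finset.sum_Ioc_consecutive _ (Nat.zero_le _) hM).symm
  have t5 : ‖∑ n ∈ Finset.Ioc N M, f s j n‖ ≤ 2744 * (3 + ‖s‖) * (1 / √(N : ℝ)) + ‖A s j M‖ + ‖A s j N‖ := by
    have e2 : ∑ n ∈ Finset.Ioc N M, f s j n = (∑ n ∈ Finset.Ioc N M, f s j n - (A s j M - A s j N)) +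
        (A s j M - A s j N) := by ring
    rw [e2]
    refine (norm_add_le _ _).trans ?_
    have t6 := norm_sub_le (A s j M) (A s j N)
    have t7 : 2744 * (3 + ‖s‖) * (1 / √(N : ℝ) - 1 / √(M : ℝ)) ≤ 2744 * (3 + ‖s‖) * (1 / √(N : ℝ)) := by
      have : 0 ≤ 1 / √(M : ℝ) := by positivity
      gcongr
      linarith
    linarith
  have t8 := norm_add_le (∑ n ∈ Finset.Ioc 0 N, f s j n) (∑ n ∈ Finset.Ioc N M, f s j n)
  rw [← e] at t8
  linarith

end ZB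

/-- Bounds for the derivatives of zeta near the line `Re s = 1`. -/
theorem zBound : ZBoundSt := by
  refine ⟨169289, by norm_num, ?_⟩
  intro j hj σ t h1 h2 ht
  set s : ℂ := (σ : ℂ) + (t : ℂ) * I with hs
  have hre : s.re = σ := by simp [hs]
  have him : s.im = t := by simp [hs]
  have hn1 : 1 ≤ ‖s - 1‖ := by
    have : |(s - 1).im| ≤ ‖s - 1‖ := abs_im_le_norm _
    have e : (s - 1).im = t := by simp [hs]
    rw [e] at this
    linarith
  have hns : ‖s‖ ≤ 2 + |t| := by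
    have := norm_le_abs_re_add_abs_im s
    rw [hre, him, abs_of_pos (by linarith)] at this
    linarith
  set N : ℕ := ⌈t ^ 2⌉₊ with hN
  have ht2 : (4 : ℝ) ≤ t ^ 2 := by rw [← sq_abs]; nlinarith
  have hNt : t ^ 2 ≤ N := Nat.le_ceil _
  have hNt2 : (N : ℝ) < t ^ 2 + 1 := Nat.ceil_lt_add_one (by positivity)
  have hN1 : 1 ≤ N := by
    have : (1 : ℝ) ≤ N := by linarith
    exact_mod_cast this
  have hb := ZB.bound (s := s) (by rw [hre]; exact h1) hn1 j hj N hN1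
  have hsq : |t| ≤ √(N : ℝ) := by
    rw [← Real.sqrt_sq_eq_abs]; exact Real.sqrt_le_sqrt hNt
  have hlog2 : (1 / 2 : ℝ) ≤ Real.log 2 := by
    have := Real.log_two_gt_d9; linarith
  have hlt : (1 / 2 : ℝ) ≤ Real.log |t| := hlog2.trans (Real.log_le_log (by norm_num) ht)
  have hlN : Real.log (N : ℝ) ≤ 3 * Real.log |t| := by
    have : (N : ℝ) ≤ |t| ^ 3 := by
      have e : t ^ 2 = |t| ^ 2 := (sq_abs t).symm
      rw [e] at hNt2
      nlinarith [sq_nonneg (|t| - 2), sq_nonneg (|t|)]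
    have h3 : Real.log (N : ℝ) ≤ Real.log (|t| ^ 3) :=
      Real.log_le_log (by exact_mod_cast hN1) this
    rw [Real.log_pow] at h3
    exact_mod_cast h3
  have hlN0 : 0 ≤ Real.log (N : ℝ) := Real.log_nonneg (by exact_mod_cast hN1)
  have h5 : (1 + Real.log (N : ℝ)) ^ (j + 1) ≤ 625 * Real.log |t| ^ (j + 1) := by
    have a1 : 1 + Real.log (N : ℝ) ≤ 5 * Real.log |t| := by linarith
    have a2 : (5 : ℝ) ^ (j + 1) ≤ 5 ^ 4 := pow_le_pow_right₀ (by norm_num) (by omega)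
    calc (1 + Real.log (N : ℝ)) ^ (j + 1) ≤ (5 * Real.log |t|) ^ (j + 1) :=
          pow_le_pow_left₀ (by linarith) a1 _
      _ = 5 ^ (j + 1) * Real.log |t| ^ (j + 1) := mul_pow _ _ _
      _ ≤ 5 ^ 4 * Real.log |t| ^ (j + 1) := by gcongr
      _ = _ := by norm_num
  have h6 : 2744 * (3 + ‖s‖) * (1 / √(N : ℝ)) ≤ 9604 := by
    have b1 : 0 < |t| := by linarith
    have b2 : 1 / √(N : ℝ) ≤ 1 / |t| := one_div_le_one_div_of_le b1 hsq
    calc 2744 * (3 + ‖s‖) * (1 / √(N : ℝ)) ≤ 2744 * (3 + (2 + |t|)) * (1 / |t|) := by gcongr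
      _ ≤ 9604 := by
        rw [mul_one_div, div_le_iff₀ b1]
        nlinarith
  have h7 : (1 : ℝ) ≤ 16 * Real.log |t| ^ (j + 1) := by
    have a2 : (2 : ℝ) ^ (j + 1) ≤ 2 ^ 4 := pow_le_pow_right₀ (by norm_num) (by omega)
    calc (1 : ℝ) ≤ (2 * Real.log |t|) ^ (j + 1) := one_le_pow₀ (by linarith)
      _ = 2 ^ (j + 1) * Real.log |t| ^ (j + 1) := mul_pow _ _ _
      _ ≤ 2 ^ 4 * Real.log |t| ^ (j + 1) := by gcongr
      _ = _ := by norm_num
  nlinarith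

end Pool.Agent.H61.PNT
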